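import Pool.Agent.H37.TU.CNT
import Pool.Agent.H34.AC.KapR

/-! # THEOREM U (MP_821da1_nt): the stable set over a common subfield and its size (helper37)

As `CNT.lean`, with different centres `gam a` for the different fibres. `q` is irreducible of degree `r`,
`q(β) = 0`, `φ a` is a rational polynomial with `φ a (gam a (l a)) = β`. The set `PP` consists of the
tuples `p` such that for some root `β'` of `q` and all `a` there is `u` in the orbit of `l a` with
`φ a (gam a u) = β'` and `tau_a (p (an a)) u = lab_a (p (cv a))`. -/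

namespace Pool.Agent.H37.TU

open Finset Polynomial Pool.Agent.H72.ES Pool.Agent.H87.SA2 Pool.Agent.H8.AW Pool.Agent.H52.AC
  Pool.Agent.H97.NW Pool.Agent.H97.FB Pool.Agent.H34.AC Pool.Agent.H97.XC

variable {M n nu : ℕ}

private theorem cn_mem {z : ℂ} (hz : IsIntegral ℤ z) : z ∈ AA := by
  rw [mem_algebraicClosure_iff]
  exact (hz.tower_top (A := ℚ)).isAlgebraic

private theorem cn_memq {q : ℚ[X]} (hq : q ≠ 0) {z : ℂ} (hz : aeval z q = 0) : z ∈ AA := by
  rw [mem_algebraicClosure_iff]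
  exact ⟨q, hq, hz⟩

/-- the value of a rational polynomial under `σ` -/
theorem cj_aeval {σ : AA →+* ℂ} {z w : ℂ} (hz : z ∈ AA) (h : Cj σ z w) (φ : ℚ[X]) :
    Cj σ (aeval z φ) (aeval w φ) := by
  obtain ⟨a, ha⟩ : ∃ a : AA, (a : ℂ) = z := ⟨⟨z, hz⟩, rfl⟩
  have h1 := h a ha
  have h2 : ((eval₂ (algebraMap ℚ AA) a φ : AA) : ℂ) = aeval z φ := by
    have h3 : algebraMap AA ℂ (eval₂ (algebraMap ℚ AA) a φ) = aeval z φ := by
      rw [hom_eval₂]
      have e1 : (algebraMap AA ℂ).comp (algebraMap ℚ AA) = algebraMap ℚ ℂ := Subsingleton.elim _ _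
      have e2 : algebraMap AA ℂ a = z := ha
      rw [e1, e2]
      rfl
    exact h3
  intro b hb
  have h3 : b = eval₂ (algebraMap ℚ AA) a φ := Subtype.ext (hb.trans h2.symm)
  rw [h3, hom_eval₂]
  have e1 : σ.comp (algebraMap ℚ AA) = algebraMap ℚ ℂ := Subsingleton.elim _ _
  rw [e1, h1]
  rfl

private lemma cn_lift {k : Type} [Field k] [NumberField k] (φ ψ : k →+* ℂ) :
    ∃ (φ0 : k →+* AA) (σ : AA →+* ℂ), (∀ z, ((φ0 z : AA) : ℂ) = φ z) ∧ ∀ z, σ (φ0 z) = ψ z := by
  let φ0 : k →+* AA := φ.codRestrict AA.toSubring (fun z => by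
    have : Algebra.IsAlgebraic ℚ k := Algebra.IsAlgebraic.of_finite ℚ k
    have h1 : IsAlgebraic ℚ z := Algebra.IsAlgebraic.isAlgebraic z
    show φ z ∈ algebraicClosure ℚ ℂ
    rw [mem_algebraicClosure_iff]
    exact h1.algHom φ.toRatAlgHom)
  let _i : Algebra k AA := φ0.toAlgebra
  let _i : Algebra k ℂ := ψ.toAlgebra
  have : IsScalarTower ℚ k AA := IsScalarTower.of_algebraMap_eq' (Subsingleton.elim _ _)
  have : Algebra.IsAlgebraic ℚ AA := algebraicClosure.isAlgebraic ℚ ℂ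
  have : Algebra.IsAlgebraic k AA := Algebra.IsAlgebraic.tower_top (K := ℚ) k
  let σ : AA →ₐ[k] ℂ := IsAlgClosed.lift
  refine ⟨φ0, σ.toRingHom, fun z => rfl, fun z => ?_⟩
  exact σ.commutes z

/-- two roots of an irreducible rational polynomial are conjugate -/
theorem cj_roots {q : ℚ[X]} (hq : Irreducible q) {z w : ℂ} (hz : aeval z q = 0)
    (hw : aeval w q = 0) : ∃ σ : AA →+* ℂ, Cj σ z w := by
  have hfact : Fact (Irreducible q) := ⟨hq⟩
  have hfin : Module.Finite ℚ (AdjoinRoot q) := (AdjoinRoot.powerBasis hq.ne_zero).finite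
  have hc : CharZero (AdjoinRoot q) :=
    charZero_of_injective_algebraMap (algebraMap ℚ (AdjoinRoot q)).injective
  have hnf : NumberField (AdjoinRoot q) := NumberField.mk
  have hz' : eval₂ (algebraMap ℚ ℂ) z q = 0 := hz
  have hw' : eval₂ (algebraMap ℚ ℂ) w q = 0 := hw
  obtain ⟨φ0, σ, h0, h1⟩ := cn_lift (AdjoinRoot.lift (algebraMap ℚ ℂ) z hz')
    (AdjoinRoot.lift (algebraMap ℚ ℂ) w hw')
  refine ⟨σ, fun a ha => ?_⟩
  have h2 := h0 (AdjoinRoot.root q)
  have h3 := h1 (AdjoinRoot.root q)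
  rw [AdjoinRoot.lift_root] at h2 h3
  have h4 : a = φ0 (AdjoinRoot.root q) := Subtype.ext (ha.trans h2.symm)
  rw [h4, h3]

open Classical in
/-- the orbit of the index `l` -/
noncomputable def orb (gam : Fin n → ℂ) (l : Fin n) : Finset (Fin n) :=
  univ.filter fun u => ∃ σ : AA →+* ℂ, Cj σ (gam l) (gam u)

theorem mem_orb {gam : Fin n → ℂ} {l u : Fin n} :
    u ∈ orb gam l ↔ ∃ σ : AA →+* ℂ, Cj σ (gam l) (gam u) := by
  classical
  simp [orb]

theorem orb_self (gam : Fin n → ℂ) (l : Fin n) : l ∈ orb gam l :=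
  mem_orb.2 ⟨algebraMap AA ℂ, fun a ha => ha⟩

theorem orb_stab {gam : Fin n → ℂ} (hint : ∀ u, gam u ∈ AA) {l : Fin n} {σ : AA →+* ℂ}
    {π : Equiv.Perm (Fin n)} (hπ : Prm gam σ π) {u : Fin n} (hu : u ∈ orb gam l) :
    π u ∈ orb gam l := by
  obtain ⟨σ0, hσ0⟩ := mem_orb.1 hu
  obtain ⟨τ, hτ⟩ := aa_equiv σ0
  refine mem_orb.2 ⟨σ.comp (τ : AA →+* AA), fun a ha => ?_⟩
  have h1 : ((τ a : AA) : ℂ) = gam u := by rw [hτ, hσ0 a ha]
  have h2 := hπ u (τ a) h1
  exact h2

theorem orb_card {gam : Fin n → ℂ} (hinj : Function.Injective gam) (hint : ∀ u, gam u ∈ AA)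
    {l : Fin n} {p : ℚ[X]} (hp : p ≠ 0) (hl : aeval (gam l) p = 0) :
    (orb gam l).card ≤ p.natDegree := by
  classical
  have hp' : p.map (algebraMap ℚ ℂ) ≠ 0 :=
    (Polynomial.map_ne_zero_iff (algebraMap ℚ ℂ).injective).2 hp
  have h1 : (orb gam l).card ≤ (p.map (algebraMap ℚ ℂ)).roots.toFinset.card := by
    refine card_le_card_of_injOn gam ?_ hinj.injOn
    intro u hu
    obtain ⟨σ, hσ⟩ := mem_orb.1 (mem_coe.1 hu)
    rw [mem_coe, Multiset.mem_toFinset, mem_roots hp', IsRoot, eval_map]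
    have h2 := cj_aeval (hint l) hσ p
    rw [hl] at h2
    have h3 := h2 0 rfl
    rw [map_zero] at h3
    exact h3.symm
  exact h1.trans ((Multiset.toFinset_card_le _).trans ((card_roots' _).trans natDegree_map_le))

/-- the fibres of `u ↦ φ (gam u)` on the orbit -/
theorem orb_fib {gam : Fin n → ℂ} (hint : ∀ u, gam u ∈ AA)
    (hprm : ∀ σ : AA →+* ℂ, ∃ π, Prm gam σ π) {l : Fin n} {q : ℚ[X]} (hq : Irreducible q)
    {φ : ℚ[X]} {β : ℂ} (hβ : aeval β q = 0) (hφ : aeval (gam l) φ = β) {β' : ℂ}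
    (hβ' : aeval β' q = 0) [DecidableEq ℂ] :
    q.natDegree * ((orb gam l).filter fun u => aeval (gam u) φ = β').card ≤ (orb gam l).card := by
  classical
  have hq' : q.map (algebraMap ℚ ℂ) ≠ 0 :=
    (Polynomial.map_ne_zero_iff (algebraMap ℚ ℂ).injective).2 hq.ne_zero
  obtain ⟨Z, hZ⟩ : ∃ Z : Finset ℂ, Z = (q.map (algebraMap ℚ ℂ)).roots.toFinset := ⟨_, rfl⟩
  have hmemZ : ∀ z, z ∈ Z ↔ aeval z q = 0 := by
    intro z
    rw [hZ, Multiset.mem_toFinset, mem_roots hq', IsRoot, eval_map]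
    rfl
  have hZc : Z.card = q.natDegree := by
    have hsep : (q.map (algebraMap ℚ ℂ)).Separable := hq.separable.map
    rw [hZ, Multiset.toFinset_card_of_nodup (nodup_roots hsep)]
    have h1 : (q.map (algebraMap ℚ ℂ)).roots.card = (q.map (algebraMap ℚ ℂ)).natDegree :=
      (IsAlgClosed.splits (q.map (algebraMap ℚ ℂ))).natDegree_eq_card_roots.symm
    rw [h1, natDegree_map]
  have hmaps : ∀ u ∈ orb gam l, aeval (gam u) φ ∈ Z := by
    intro u hu
    obtain ⟨σ, hσ⟩ := mem_orb.1 hu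
    rw [hmemZ]
    have h1 := cj_aeval (hint l) hσ φ
    rw [hφ] at h1
    have h2 := cj_aeval (cn_memq hq.ne_zero hβ) h1 q
    rw [hβ] at h2
    have h3 := h2 0 rfl
    rw [map_zero] at h3
    exact h3.symm
  have h2 : ∀ w ∈ Z, ((orb gam l).filter fun u => aeval (gam u) φ = β').card ≤
      ((orb gam l).filter fun u => aeval (gam u) φ = w).card := by
    intro w hw
    obtain ⟨σ, hσ⟩ := cj_roots hq hβ' ((hmemZ w).1 hw)
    obtain ⟨π, hπ⟩ := hprm σ
    refine card_le_card_of_injOn π ?_ (fun _ _ _ _ hij => π.injective hij)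
    intro u hu
    obtain ⟨hu1, hu2⟩ := mem_filter.1 (mem_coe.1 hu)
    refine mem_coe.2 (mem_filter.2 ⟨orb_stab hint hπ hu1, ?_⟩)
    have h3 := cj_aeval (hint u) (hπ u) φ
    rw [hu2] at h3
    obtain ⟨b, hb⟩ : ∃ b : AA, (b : ℂ) = β' := ⟨⟨β', cn_memq hq.ne_zero hβ'⟩, rfl⟩
    exact (h3 b hb).symm.trans (hσ b hb)
  calc q.natDegree * ((orb gam l).filter fun u => aeval (gam u) φ = β').card
      = ∑ _w ∈ Z, ((orb gam l).filter fun u => aeval (gam u) φ = β').card := by
        rw [sum_const, smul_eq_mul, hZc]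
    _ ≤ ∑ w ∈ Z, ((orb gam l).filter fun u => aeval (gam u) φ = w).card := sum_le_sum h2
    _ = (orb gam l).card := (card_eq_sum_card_fiberwise hmaps).symm

/-- the set of tuples of branches over a common subfield -/
theorem exists_PP2 (P : Fin (2 * M) → Ptd nu) (gs : Fin M → ℤ[X]) (θ : Fin M → Fin n → ℂ)
    (gc : Fin M → ℤ[X]) (gam : Fin M → Fin n → ℂ) (q : ℚ[X]) (β : ℂ) (p φ : Fin M → ℚ[X])
    (l : Fin M → Fin n) (s : ℕ) (hq : Irreducible q) (hβ : aeval β q = 0)
    (hgc : ∀ a, (gc a).Monic) (hgam : ∀ a, Rts (gc a) (gam a)) (hp : ∀ a, p a ≠ 0)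
    (hps : ∀ a, (p a).natDegree ≤ s) (hpl : ∀ a, aeval (gam a (l a)) (p a) = 0)
    (hφ : ∀ a, aeval (gam a (l a)) (φ a) = β) (hm : ∀ a, (gs a).Monic)
    (hirr : ∀ a, Irreducible ((gs a).map (Int.castRingHom ℚ))) (hθ : ∀ a, Rts (gs a) (θ a))
    (hC : ∀ a, Nonempty (LbG (P (cv a)) (v1 (θ a)) (l a)))
    (hA : ∀ a, TauA (θ a) (gam a) (P (an a))) :
    ∃ PP : Finset (∀ v, Fin (P v).d), Stb P PP ∧ (fun v => (P v).i) ∈ PP ∧
      (q.natDegree * n) ^ M * PP.card ≤ q.natDegree * s ^ M * ∏ v, (P v).d := by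
  classical
  have L : ∀ a, LbG (P (cv a)) (v1 (θ a)) (l a) := fun a => (hC a).some
  choose tau htau1 htgal htrot using hA
  have hint : ∀ a u, gam a u ∈ AA := fun a u => cn_mem ((gdG_one (hgc a) (hgam a)).int u 0)
  have hprm : ∀ a (σ : AA →+* ℂ), ∃ π, Prm (gam a) σ π := fun a σ => exists_prm (hgc a) (hgam a) σ
  have hfib : ∀ a u, n * ((L a).S.filter fun i => (L a).th i = u).card ≤ (P (cv a)).d := by
    intro a u
    have := lab_fib (L a) (trG_one (hm a) (hirr a) (hθ a)) (gdG_one (hm a) (hθ a)) u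
    rwa [Fintype.card_fin] at this
  have hq' : q.map (algebraMap ℚ ℂ) ≠ 0 :=
    (Polynomial.map_ne_zero_iff (algebraMap ℚ ℂ).injective).2 hq.ne_zero
  obtain ⟨Z, hZ⟩ : ∃ Z : Finset ℂ, Z = (q.map (algebraMap ℚ ℂ)).roots.toFinset := ⟨_, rfl⟩
  have hmemZ : ∀ z, z ∈ Z ↔ aeval z q = 0 := by
    intro z
    rw [hZ, Multiset.mem_toFinset, mem_roots hq', IsRoot, eval_map]
    rfl
  have hZc : Z.card ≤ q.natDegree := by
    rw [hZ]
    exact (Multiset.toFinset_card_le _).trans ((card_roots' _).trans natDegree_map_le)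
  let PP : Finset (∀ v, Fin (P v).d) := univ.filter fun x => ∃ b ∈ Z, ∀ a, x (cv a) ∈ (L a).S ∧
    ∃ u ∈ orb (gam a) (l a), aeval (gam a u) (φ a) = b ∧ tau a (x (an a)) u = (L a).th (x (cv a))
  have hmem : ∀ x, x ∈ PP ↔ ∃ b ∈ Z, ∀ a, x (cv a) ∈ (L a).S ∧
      ∃ u ∈ orb (gam a) (l a), aeval (gam a u) (φ a) = b ∧
        tau a (x (an a)) u = (L a).th (x (cv a)) := by
    intro x
    simp [PP]
  refine ⟨PP, ⟨?_, ?_⟩, ?_, ?_⟩
  · intro σ x hx x' hxx
    obtain ⟨b, hb, h⟩ := (hmem x).1 hx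
    have hb0 := (hmemZ b).1 hb
    obtain ⟨b1, hb1⟩ : ∃ b1 : AA, (b1 : ℂ) = b := ⟨⟨b, cn_memq hq.ne_zero hb0⟩, rfl⟩
    have hcb : Cj σ b (σ b1) := fun c hc => by
      have : c = b1 := Subtype.ext (hc.trans hb1.symm)
      rw [this]
    rw [hmem]
    refine ⟨σ b1, ?_, fun a => ?_⟩
    · rw [hmemZ]
      have h2 := cj_aeval (cn_memq hq.ne_zero hb0) hcb q
      rw [hb0] at h2
      have h3 := h2 0 rfl
      rw [map_zero] at h3
      exact h3.symm
    · obtain ⟨h1, u, hu, hub, hut⟩ := h a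
      obtain ⟨ν, hν⟩ := exists_prm (hm a) (hθ a) σ
      obtain ⟨π, hπ⟩ := hprm a σ
      obtain ⟨h2, h3⟩ := lab_prm (hm a) (hθ a) (L a) hν h1 (j := x' (cv a))
        (fun k c hc => hxx (cv a) k c hc)
      refine ⟨h2, π u, orb_stab (hint a) hπ hu, ?_, ?_⟩
      · have h4 := cj_aeval (hint a u) (hπ u) (φ a)
        rw [hub] at h4
        exact (h4 b1 hb1).symm
      · rw [h3, htgal a σ ν π hν hπ (x (an a)) (x' (an a)) (fun k c hc => hxx (an a) k c hc),
          ← hut]
        simp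
  · intro ζ hζ x hx x' hxx
    obtain ⟨b, hb, h⟩ := (hmem x).1 hx
    rw [hmem]
    refine ⟨b, hb, fun a => ?_⟩
    obtain ⟨h1, u, hu, hub, hut⟩ := h a
    obtain ⟨h2, h3⟩ := (L a).rot (ζ (cv a)) (hζ _) (x (cv a)) h1 (x' (cv a)) (hxx (cv a))
    refine ⟨h2, u, hu, hub, ?_⟩
    rw [h3, htrot a (ζ (an a)) (hζ _) (x (an a)) (x' (an a)) (hxx (an a))]
    exact hut
  · rw [hmem]
    refine ⟨β, (hmemZ β).2 hβ, fun a => ⟨(L a).mem, l a, orb_self _ _, hφ a, ?_⟩⟩
    rw [htau1, (L a).near]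
    rfl
  · -- the size
    let U : ℂ → ∀ a : Fin M, Finset (Fin n) := fun b a =>
      (orb (gam a) (l a)).filter fun u => aeval (gam a u) (φ a) = b
    let Q : ℂ → Finset (∀ v, Fin (P v).d) := fun b => univ.filter fun x => ∀ a,
      x (cv a) ∈ (L a).S ∧ ∃ u ∈ U b a, tau a (x (an a)) u = (L a).th (x (cv a))
    have hsub : PP ⊆ Z.biUnion Q := by
      intro x hx
      obtain ⟨b, hb, h⟩ := (hmem x).1 hx
      rw [mem_biUnion]
      refine ⟨b, hb, mem_filter.2 ⟨mem_univ _, fun a => ?_⟩⟩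
      obtain ⟨h1, u, hu, hub, hut⟩ := h a
      exact ⟨h1, u, mem_filter.2 ⟨hu, hub⟩, hut⟩
    have hQ : ∀ b ∈ Z, (q.natDegree * n) ^ M * (Q b).card ≤ s ^ M * ∏ v, (P v).d := by
      intro b hb
      -- pairs
      let R : ∀ a : Fin M, Finset (Fin (P (cv a)).d × Fin (P (an a)).d) := fun a =>
        univ.filter fun x => x.1 ∈ (L a).S ∧ ∃ u ∈ U b a, tau a x.2 u = (L a).th x.1
      have hR : ∀ a, n * (R a).card ≤ (U b a).card * ((P (cv a)).d * (P (an a)).d) := by
        intro a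
        have h1 : (R a).card ≤ ∑ j : Fin (P (an a)).d, ∑ u ∈ U b a,
            ((L a).S.filter fun i => (L a).th i = tau a j u).card := by
          have h2 : (R a).card = ∑ j : Fin (P (an a)).d, ((R a).filter fun x => x.2 = j).card :=
            card_eq_sum_card_fiberwise fun x _ => mem_univ _
          rw [h2]
          refine sum_le_sum fun j _ => ?_
          have h3 : ((R a).filter fun x => x.2 = j).card ≤ ((U b a).biUnion fun u =>
              (L a).S.filter fun i => (L a).th i = tau a j u).card := by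
            refine card_le_card_of_injOn (fun x => x.1) ?_ ?_
            · rintro ⟨i, j'⟩ hx
              have hx' := mem_filter.1 (mem_coe.1 hx)
              have hx1 := (mem_filter.1 hx'.1).2
              have hx2 : j' = j := hx'.2
              subst hx2
              obtain ⟨h4, u, hu, hut⟩ := hx1
              rw [mem_coe, mem_biUnion]
              exact ⟨u, hu, mem_filter.2 ⟨h4, hut.symm⟩⟩
            · rintro ⟨i, j'⟩ hx ⟨i', j''⟩ hx' he
              have hx1 : j' = j := (mem_filter.1 (mem_coe.1 hx)).2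
              have hx2 : j'' = j := (mem_filter.1 (mem_coe.1 hx')).2
              rw [Prod.mk.injEq]
              exact ⟨he, hx1.trans hx2.symm⟩
          exact h3.trans card_biUnion_le
        calc n * (R a).card ≤ n * ∑ j : Fin (P (an a)).d, ∑ u ∈ U b a,
              ((L a).S.filter fun i => (L a).th i = tau a j u).card := Nat.mul_le_mul_left _ h1
          _ = ∑ j : Fin (P (an a)).d, ∑ u ∈ U b a,
              n * ((L a).S.filter fun i => (L a).th i = tau a j u).card := by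
            rw [mul_sum]
            exact sum_congr rfl fun j _ => mul_sum _ _ _
          _ ≤ ∑ j : Fin (P (an a)).d, ∑ _u ∈ U b a, (P (cv a)).d :=
            sum_le_sum fun j _ => sum_le_sum fun u _ => hfib a _
          _ = (U b a).card * ((P (cv a)).d * (P (an a)).d) := by
            simp only [sum_const, card_univ, Fintype.card_fin, smul_eq_mul]
            ring
      have hU : ∀ a, q.natDegree * (U b a).card ≤ s := by
        intro a
        exact (orb_fib (hint a) (hprm a) hq hβ (hφ a) ((hmemZ b).1 hb)).trans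
          ((orb_card (hgam a).2 (hint a) (hp a) (hpl a)).trans (hps a))
      have hinj : (Q b).card ≤ (Fintype.piFinset R).card := by
        refine card_le_card_of_injOn (fun x a => (x (cv a), x (an a))) ?_ ?_
        · intro x hx
          have hx' := (mem_filter.1 (mem_coe.1 hx)).2
          rw [mem_coe, Fintype.mem_piFinset]
          intro a
          exact mem_filter.2 ⟨mem_univ _, hx' a⟩
        · intro x _ x' _ h
          funext v
          rcases exists_cv_an v with ⟨a, rfl⟩ | ⟨a, rfl⟩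
          · exact congrArg Prod.fst (congrFun h a)
          · exact congrArg Prod.snd (congrFun h a)
      rw [Fintype.card_piFinset] at hinj
      calc (q.natDegree * n) ^ M * (Q b).card ≤ (q.natDegree * n) ^ M * ∏ a, (R a).card :=
            Nat.mul_le_mul_left _ hinj
        _ = ∏ a, (q.natDegree * (n * (R a).card)) := by
          rw [prod_mul_distrib, prod_mul_distrib, prod_const, prod_const, card_univ,
            Fintype.card_fin, mul_pow, mul_assoc]
        _ ≤ ∏ a, (s * ((P (cv a)).d * (P (an a)).d)) := by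
          refine prod_le_prod' fun a _ => ?_
          calc q.natDegree * (n * (R a).card)
              ≤ q.natDegree * ((U b a).card * ((P (cv a)).d * (P (an a)).d)) :=
                Nat.mul_le_mul_left _ (hR a)
            _ = q.natDegree * (U b a).card * ((P (cv a)).d * (P (an a)).d) := (mul_assoc _ _ _).symm
            _ ≤ s * ((P (cv a)).d * (P (an a)).d) := Nat.mul_le_mul_right _ (hU a)
        _ = s ^ M * ∏ v, (P v).d := by
          rw [prod_mul_distrib, prod_const, card_univ, Fintype.card_fin,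
            prod_two fun v => (P v).d]
    calc (q.natDegree * n) ^ M * PP.card ≤ (q.natDegree * n) ^ M * ∑ b ∈ Z, (Q b).card :=
          Nat.mul_le_mul_left _ ((card_le_card hsub).trans card_biUnion_le)
      _ = ∑ b ∈ Z, (q.natDegree * n) ^ M * (Q b).card := mul_sum _ _ _
      _ ≤ ∑ _b ∈ Z, s ^ M * ∏ v, (P v).d := sum_le_sum hQ
      _ = Z.card * (s ^ M * ∏ v, (P v).d) := by rw [sum_const, smul_eq_mul]
      _ ≤ q.natDegree * (s ^ M * ∏ v, (P v).d) := Nat.mul_le_mul_right _ hZc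
      _ = q.natDegree * s ^ M * ∏ v, (P v).d := (mul_assoc _ _ _).symm

/-- the stable set over a common subfield with the inequality needed in `far_m` / `far_r` -/
theorem stab_count2 (M n r s : ℕ)
    (h : (2 * M) ^ (2 * M) * r * s ^ M < (2 * M).factorial * (r * n) ^ M) :
    ∃ g : ℝ, 0 < g ∧ ∀ (nu : ℕ) (P : Fin (2 * M) → Ptd nu) (gs : Fin M → ℤ[X])
      (θ : Fin M → Fin n → ℂ) (gc : Fin M → ℤ[X]) (gam : Fin M → Fin n → ℂ) (q : ℚ[X]) (β : ℂ)
      (p φ : Fin M → ℚ[X]) (l : Fin M → Fin n),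
      Irreducible q → q.natDegree = r → aeval β q = 0 → (∀ a, (gc a).Monic) →
      (∀ a, Rts (gc a) (gam a)) → (∀ a, p a ≠ 0) → (∀ a, (p a).natDegree ≤ s) →
      (∀ a, aeval (gam a (l a)) (p a) = 0) → (∀ a, aeval (gam a (l a)) (φ a) = β) →
      (∀ a, (gs a).Monic) → (∀ a, Irreducible ((gs a).map (Int.castRingHom ℚ))) →
      (∀ a, Rts (gs a) (θ a)) → (∀ a, Nonempty (LbG (P (cv a)) (v1 (θ a)) (l a))) →
      (∀ a, TauA (θ a) (gam a) (P (an a))) →
      ∃ PP : Finset (∀ v, Fin (P v).d), Stb P PP ∧ (fun v => (P v).i) ∈ PP ∧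
        (1 + g) * (((2 * M : ℕ) : ℝ) ^ (2 * M) * PP.card) ≤
          ((2 * M).factorial : ℝ) * ∏ v, ((P v).d : ℝ) := by
  obtain ⟨γ, hγ, hmain⟩ := exists_gam M (r * n) (r * s ^ M) (by rwa [← mul_assoc])
  refine ⟨γ, hγ, ?_⟩
  intro nu P gs θ gc gam q β p φ l hq hr hβ hgc hgam hp hps hpl hφ hm hirr hθ hC hA
  obtain ⟨PP, h1, h2, h3⟩ := exists_PP2 P gs θ gc gam q β p φ l s hq hβ hgc hgam hp hps hpl hφ
    hm hirr hθ hC hA
  refine ⟨PP, h1, h2, hmain _ _ (prod_nonneg fun v _ => Nat.cast_nonneg _) ?_⟩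
  rw [hr] at h3
  exact_mod_cast h3

end Pool.Agent.H37.TU
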