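import Pool.Agent.H97.FB.TRA
import Pool.Agent.H52.AC.PRM

/-! # THEOREM U (MP_821da1_nt): the stable set of tuples of branches and its size (helper37)

`2 * M` pointed curves `P` in decreasing order: `P (cv a)`, `a : Fin M`, are the curves, with a labelling
(`LbG`) of the orbit of the near branch by the roots `θ a u` of the fibre `gs a`; `P (an a)` are the
twisted curves (anchors), whose branches carry permutations (`TauA`). The set `PP` consists of the tuples
`p` such that for some `s` in the stable set `S0` of the near index `l` and all `a`: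
`tau_a (p (an a)) s = lab_a (p (cv a))`. -/

namespace Pool.Agent.H37.TU

open Finset Polynomial Pool.Agent.H72.ES Pool.Agent.H87.SA2 Pool.Agent.H8.AW Pool.Agent.H52.AC
  Pool.Agent.H97.NW Pool.Agent.H97.FB

variable {M n nu : ℕ}

/-- the index of the `a`-th curve -/
def cv (a : Fin M) : Fin (2 * M) := ⟨2 * a.val, by omega⟩

/-- the index of the `a`-th anchor -/
def an (a : Fin M) : Fin (2 * M) := ⟨2 * a.val + 1, by omega⟩

/-- `ν` is the permutation of the list `θ` by `σ` -/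
def Prm (θ : Fin n → ℂ) (σ : AA →+* ℂ) (ν : Equiv.Perm (Fin n)) : Prop :=
  ∀ u, Cj σ (θ u) (θ (ν u))

/-- the branches carry permutations, the near branch carries the identity; `θ` is the list of the roots
of the fibre, `gam` the list of the roots at infinity -/
def TauA (θ gam : Fin n → ℂ) (p : Ptd nu) : Prop :=
  ∃ tau : Fin p.d → Equiv.Perm (Fin n), tau p.i = 1 ∧
    (∀ (σ : AA →+* ℂ) (ν π : Equiv.Perm (Fin n)), Prm θ σ ν → Prm gam σ π → ∀ i j : Fin p.d,
      (∀ k : ℕ, Cj σ (PowerSeries.coeff k (p.C.pd.x i)) (PowerSeries.coeff k (p.C.pd.x j))) →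
      tau j = ν * tau i * π⁻¹) ∧
    ∀ ζ : ℂ, ζ ^ p.C.pd.e = 1 → ∀ i j : Fin p.d,
      PowerSeries.rescale ζ (p.C.pd.x i) = p.C.pd.x j → tau j = tau i

/-- a product over `Fin (2 * M)` -/
theorem prod_two {α : Type*} [CommMonoid α] (f : Fin (2 * M) → α) :
    ∏ v, f v = ∏ a : Fin M, (f (cv a) * f (an a)) := by
  let e : Fin M × Fin 2 ≃ Fin (2 * M) := finProdFinEquiv.trans (finCongr (Nat.mul_comm M 2))
  rw [← Equiv.prod_comp e, Fintype.prod_prod_type]
  refine prod_congr rfl fun a _ => ?_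
  rw [Fin.prod_univ_two]
  congr 2
  · apply Fin.ext
    simp [e, cv, finProdFinEquiv]
  · apply Fin.ext
    simp [e, an, finProdFinEquiv]
    omega

theorem exists_cv_an (v : Fin (2 * M)) : (∃ a, v = cv a) ∨ ∃ a, v = an a := by
  rcases Nat.even_or_odd' v.val with ⟨k, hk | hk⟩
  · left
    exact ⟨⟨k, by omega⟩, Fin.ext hk⟩
  · right
    exact ⟨⟨k, by omega⟩, Fin.ext hk⟩

theorem cv_inj {a b : Fin M} (h : cv a = cv b) : a = b := by
  have := congrArg Fin.val h
  simp only [cv] at this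
  exact Fin.ext (by omega)

theorem an_inj {a b : Fin M} (h : an a = an b) : a = b := by
  have := congrArg Fin.val h
  simp only [an] at this
  exact Fin.ext (by omega)

theorem cv_ne_an (a b : Fin M) : cv a ≠ an b := by
  intro h
  have := congrArg Fin.val h
  simp only [an, cv] at this
  omega

private theorem tu_mem {z : ℂ} (hz : IsIntegral ℤ z) : z ∈ AA := by
  rw [mem_algebraicClosure_iff]
  exact (hz.tower_top (A := ℚ)).isAlgebraic

private theorem tu_root {g : ℤ[X]} {θ : Fin n → ℂ} (h : Rts g θ) (l : Fin n) :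
    eval₂ (Int.castRingHom ℂ) (θ l) g = 0 := by
  rw [← eval_map, h.1, eval_prod]
  apply Finset.prod_eq_zero (Finset.mem_univ l)
  rw [eval_sub, eval_X, eval_C, sub_self]

/-- the roots of a monic integer polynomial are permuted -/
theorem exists_prm {g : ℤ[X]} {θ : Fin n → ℂ} (hm : g.Monic) (h : Rts g θ) (σ : AA →+* ℂ) :
    ∃ ν : Equiv.Perm (Fin n), Prm θ σ ν := by
  have hint := (gdG_one hm h).int
  have hA : ∀ u, ∃ a : AA, (a : ℂ) = θ u := fun u => ⟨⟨θ u, tu_mem (hint u 0)⟩, rfl⟩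
  choose t ht using hA
  have hl : ∀ u, ∃ w, σ (t u) = θ w := by
    intro u
    have h1 : eval₂ (Int.castRingHom AA) (t u) g = 0 := by
      apply (algebraMap AA ℂ).injective
      rw [map_zero, hom_eval₂]
      have e1 : (algebraMap AA ℂ).comp (Int.castRingHom AA) = Int.castRingHom ℂ :=
        Subsingleton.elim _ _
      have e2 : algebraMap AA ℂ (t u) = θ u := ht u
      rw [e1, e2]
      exact tu_root h u
    have h2 := congrArg σ h1
    rw [map_zero, hom_eval₂] at h2
    have e1 : σ.comp (Int.castRingHom AA) = Int.castRingHom ℂ := Subsingleton.elim _ _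
    rw [e1, ← eval_map, h.1, eval_prod] at h2
    obtain ⟨w, -, hw⟩ := Finset.prod_eq_zero_iff.mp h2
    refine ⟨w, ?_⟩
    rw [eval_sub, eval_X, eval_C] at hw
    exact sub_eq_zero.mp hw
  choose ν hν using hl
  have hinj : Function.Injective ν := by
    intro u u' he
    have h1 : σ (t u) = σ (t u') := by rw [hν, hν, he]
    have h2 := σ.injective h1
    apply h.2
    rw [← ht, ← ht, h2]
  refine ⟨Equiv.ofBijective ν (Finite.injective_iff_bijective.1 hinj), fun u a ha => ?_⟩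
  have h1 : a = t u := Subtype.ext (ha.trans (ht u).symm)
  rw [h1, hν]
  rfl

/-- all fibres of the labelling have the same number of elements -/
theorem lab_fib {r : ℕ} {ι : Type} [Fintype ι] [DecidableEq ι] {P : Ptd nu} {Θ : ι → Fin r → ℂ} {l0 : ι}
    (L : LbG P Θ l0) (T : TrG Θ) (G : GdG Θ) (w : ι) :
    Fintype.card ι * (L.S.filter fun i => L.th i = w).card ≤ P.d := by
  have hd : L.S.card ≤ P.d := by
    have := card_le_univ L.S
    rwa [Fintype.card_fin] at this
  have h1 : L.S.card = ∑ w' : ι, (L.S.filter fun i => L.th i = w').card :=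
    card_eq_sum_card_fiberwise fun i _ => mem_univ _
  have h2 : ∀ w' ∈ (univ : Finset ι), (L.S.filter fun i => L.th i = w).card ≤
      (L.S.filter fun i => L.th i = w').card := by
    intro w' _
    obtain ⟨σ, hσ⟩ := T w w'
    obtain ⟨π, hπ⟩ := perm_gal P.C.pd σ
    refine card_le_card_of_injOn π ?_ (fun _ _ _ _ hij => π.injective hij)
    intro i hi
    have hi' := mem_filter.1 hi
    obtain ⟨h3, h4⟩ := L.gal σ i hi'.1 (π i) (fun k a ha => hπ i k a ha)
    refine mem_filter.2 ⟨h3, ?_⟩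
    apply G.inj
    funext u
    obtain ⟨a, ha⟩ : ∃ a : AA, (a : ℂ) = Θ w u := ⟨⟨Θ w u, tu_mem (G.int w u)⟩, rfl⟩
    rw [← h4 u a (by rw [ha, hi'.2]), hσ u a ha]
  calc Fintype.card ι * (L.S.filter fun i => L.th i = w).card
      = ∑ _w' : ι, (L.S.filter fun i => L.th i = w).card := by
        rw [sum_const, card_univ, smul_eq_mul]
    _ ≤ ∑ w' : ι, (L.S.filter fun i => L.th i = w').card := sum_le_sum h2
    _ = L.S.card := h1.symm
    _ ≤ P.d := hd

/-- the label of the conjugate branch -/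
theorem lab_prm {g : ℤ[X]} {θ : Fin n → ℂ} (hm : g.Monic) (h : Rts g θ) {P : Ptd nu} {l : Fin n}
    (L : LbG P (v1 θ) l) {σ : AA →+* ℂ} {ν : Equiv.Perm (Fin n)} (hν : Prm θ σ ν) {i : Fin P.d}
    (hi : i ∈ L.S) {j : Fin P.d}
    (hij : ∀ k : ℕ, Cj σ (PowerSeries.coeff k (P.C.pd.x i)) (PowerSeries.coeff k (P.C.pd.x j))) :
    j ∈ L.S ∧ L.th j = ν (L.th i) := by
  obtain ⟨h1, h2⟩ := L.gal σ i hi j hij
  refine ⟨h1, ?_⟩
  have hint := (gdG_one hm h).int (L.th i) 0
  obtain ⟨a, ha⟩ : ∃ a : AA, (a : ℂ) = θ (L.th i) := ⟨⟨θ (L.th i), tu_mem hint⟩, rfl⟩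
  have h3 := h2 0 a ha
  have h4 := hν (L.th i) a ha
  exact h.2 (h3.symm.trans h4)

/-- the set of tuples of branches -/
theorem exists_PP (P : Fin (2 * M) → Ptd nu) (gs : Fin M → ℤ[X]) (θ : Fin M → Fin n → ℂ)
    (gam : Fin n → ℂ) (l : Fin n) (S0 : Finset (Fin n)) (hl : l ∈ S0)
    (hS0 : ∀ (σ : AA →+* ℂ) (π : Equiv.Perm (Fin n)), Prm gam σ π → ∀ s ∈ S0, π s ∈ S0)
    (hgam : ∀ σ : AA →+* ℂ, ∃ π, Prm gam σ π) (hm : ∀ a, (gs a).Monic)
    (hirr : ∀ a, Irreducible ((gs a).map (Int.castRingHom ℚ))) (hθ : ∀ a, Rts (gs a) (θ a))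
    (hC : ∀ a, Nonempty (LbG (P (cv a)) (v1 (θ a)) l)) (hA : ∀ a, TauA (θ a) gam (P (an a))) :
    ∃ PP : Finset (∀ v, Fin (P v).d), Stb P PP ∧ (fun v => (P v).i) ∈ PP ∧
      n ^ M * PP.card ≤ S0.card * ∏ v, (P v).d := by
  classical
  have L : ∀ a, LbG (P (cv a)) (v1 (θ a)) l := fun a => (hC a).some
  choose tau htau1 htgal htrot using hA
  have hfib : ∀ a u, n * ((L a).S.filter fun i => (L a).th i = u).card ≤ (P (cv a)).d := by
    intro a u
    have := lab_fib (L a) (trG_one (hm a) (hirr a) (hθ a)) (gdG_one (hm a) (hθ a)) u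
    rwa [Fintype.card_fin] at this
  let PP : Finset (∀ v, Fin (P v).d) := univ.filter fun p => ∃ s ∈ S0, ∀ a, p (cv a) ∈ (L a).S ∧
    tau a (p (an a)) s = (L a).th (p (cv a))
  have hmem : ∀ p, p ∈ PP ↔ ∃ s ∈ S0, ∀ a, p (cv a) ∈ (L a).S ∧
      tau a (p (an a)) s = (L a).th (p (cv a)) := by
    intro p
    simp [PP]
  refine ⟨PP, ⟨?_, ?_⟩, ?_, ?_⟩
  · intro σ p hp p' hpp
    obtain ⟨s, hs, h⟩ := (hmem p).1 hp
    obtain ⟨π, hπ⟩ := hgam σ
    choose ν hν using fun a => exists_prm (hm a) (hθ a) σ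
    rw [hmem]
    refine ⟨π s, hS0 σ π hπ s hs, fun a => ?_⟩
    obtain ⟨h1, h2⟩ := lab_prm (hm a) (hθ a) (L a) (hν a) (h a).1 (j := p' (cv a))
      (fun k b hb => hpp (cv a) k b hb)
    refine ⟨h1, ?_⟩
    rw [h2, htgal a σ (ν a) π (hν a) hπ (p (an a)) (p' (an a)) (fun k b hb => hpp (an a) k b hb),
      ← (h a).2]
    simp
  · intro ζ hζ p hp p' hpp
    obtain ⟨s, hs, h⟩ := (hmem p).1 hp
    rw [hmem]
    refine ⟨s, hs, fun a => ?_⟩
    obtain ⟨h1, h2⟩ := (L a).rot (ζ (cv a)) (hζ _) (p (cv a)) (h a).1 (p' (cv a)) (hpp (cv a))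
    refine ⟨h1, ?_⟩
    rw [h2, htrot a (ζ (an a)) (hζ _) (p (an a)) (p' (an a)) (hpp (an a))]
    exact (h a).2
  · rw [hmem]
    refine ⟨l, hl, fun a => ⟨(L a).mem, ?_⟩⟩
    rw [htau1, (L a).near]
    rfl
  · -- the size
    let Q : Fin n → Finset (∀ v, Fin (P v).d) := fun s => univ.filter fun p => ∀ a,
      p (cv a) ∈ (L a).S ∧ tau a (p (an a)) s = (L a).th (p (cv a))
    have hsub : PP ⊆ S0.biUnion Q := by
      intro p hp
      obtain ⟨s, hs, h⟩ := (hmem p).1 hp
      rw [mem_biUnion]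
      exact ⟨s, hs, by simpa [Q] using h⟩
    have hQ : ∀ s, n ^ M * (Q s).card ≤ ∏ v, (P v).d := by
      intro s
      -- pairs
      let R : ∀ a : Fin M, Finset (Fin (P (cv a)).d × Fin (P (an a)).d) := fun a =>
        univ.filter fun x => x.1 ∈ (L a).S ∧ tau a x.2 s = (L a).th x.1
      have hR : ∀ a, n * (R a).card ≤ (P (cv a)).d * (P (an a)).d := by
        intro a
        have h1 : (R a).card = ∑ j : Fin (P (an a)).d,
            ((L a).S.filter fun i => (L a).th i = tau a j s).card := by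
          have h2 : (R a).card = ∑ j : Fin (P (an a)).d, ((R a).filter fun x => x.2 = j).card :=
            card_eq_sum_card_fiberwise fun x _ => mem_univ _
          rw [h2]
          refine sum_congr rfl fun j _ => ?_
          refine card_bij (fun x _ => x.1) ?_ ?_ ?_
          · rintro ⟨i, j'⟩ hx
            simp only [R, mem_filter, mem_univ, true_and] at hx ⊢
            obtain ⟨⟨h3, h4⟩, h5⟩ := hx
            subst h5
            exact ⟨h3, h4.symm⟩
          · rintro ⟨i, j'⟩ hx ⟨i', j''⟩ hx' he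
            simp only [R, mem_filter, mem_univ, true_and] at hx hx' he
            rw [Prod.mk.injEq]
            exact ⟨he, hx.2.trans hx'.2.symm⟩
          · intro i hi
            rw [mem_filter] at hi
            refine ⟨(i, j), ?_, rfl⟩
            simp only [R, mem_filter, mem_univ, true_and]
            exact ⟨⟨hi.1, hi.2.symm⟩, trivial⟩
        rw [h1, mul_sum]
        refine (sum_le_sum fun j _ => hfib a (tau a j s)).trans ?_
        rw [sum_const, card_univ, Fintype.card_fin, smul_eq_mul, mul_comm]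
      have hinj : (Q s).card ≤ (Fintype.piFinset R).card := by
        refine card_le_card_of_injOn (fun p a => (p (cv a), p (an a))) ?_ ?_
        · intro p hp
          have hp' : p ∈ Q s := hp
          simp only [Q, mem_filter, mem_univ, true_and] at hp'
          rw [mem_coe, Fintype.mem_piFinset]
          intro a
          simp only [R, mem_filter, mem_univ, true_and]
          exact hp' a
        · intro p _ p' _ h
          funext v
          rcases exists_cv_an v with ⟨a, rfl⟩ | ⟨a, rfl⟩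
          · exact congrArg Prod.fst (congrFun h a)
          · exact congrArg Prod.snd (congrFun h a)
      rw [Fintype.card_piFinset] at hinj
      calc n ^ M * (Q s).card ≤ n ^ M * ∏ a, (R a).card := Nat.mul_le_mul_left _ hinj
        _ = ∏ a, (n * (R a).card) := by
          rw [prod_mul_distrib, prod_const, card_univ, Fintype.card_fin]
        _ ≤ ∏ a, ((P (cv a)).d * (P (an a)).d) := prod_le_prod' fun a _ => hR a
        _ = ∏ v, (P v).d := (prod_two fun v => (P v).d).symm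
    calc n ^ M * PP.card ≤ n ^ M * ∑ s ∈ S0, (Q s).card :=
          Nat.mul_le_mul_left _ ((card_le_card hsub).trans card_biUnion_le)
      _ = ∑ s ∈ S0, n ^ M * (Q s).card := mul_sum _ _ _
      _ ≤ ∑ s ∈ S0, ∏ v, (P v).d := sum_le_sum fun s _ => hQ s
      _ = S0.card * ∏ v, (P v).d := by rw [sum_const, smul_eq_mul]

/-- the constant -/
theorem exists_gam (M n r : ℕ) (h : (2 * M) ^ (2 * M) * r < (2 * M).factorial * n ^ M) :
    ∃ γ : ℝ, 0 < γ ∧ ∀ c p : ℝ, 0 ≤ p → (n : ℝ) ^ M * c ≤ r * p →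
      (1 + γ) * (((2 * M : ℕ) : ℝ) ^ (2 * M) * c) ≤ ((2 * M).factorial : ℝ) * p := by
  have hnM : 0 < n ^ M := by
    rcases Nat.eq_zero_or_pos (n ^ M) with h0 | h0
    · rw [h0] at h
      omega
    · exact h0
  rcases Nat.eq_zero_or_pos ((2 * M) ^ (2 * M) * r) with h0 | h0
  · refine ⟨1, one_pos, fun c p hp hc => ?_⟩
    have hMp : 0 < (2 * M) ^ (2 * M) := by
      rcases Nat.eq_zero_or_pos M with h1 | h1
      · subst h1
        simp
      · positivity
    have hr : r = 0 := by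
      rcases Nat.mul_eq_zero.1 h0 with h1 | h1
      · omega
      · exact h1
    rw [hr] at hc
    have hnR : (0 : ℝ) < (n : ℝ) ^ M := by exact_mod_cast hnM
    have hc0 : c ≤ 0 := by
      by_contra hcon
      push Not at hcon
      have := mul_pos hnR hcon
      simp only [Nat.cast_zero, zero_mul] at hc
      linarith
    have h1 : ((2 * M : ℕ) : ℝ) ^ (2 * M) * c ≤ 0 :=
      mul_nonpos_of_nonneg_of_nonpos (by positivity) hc0
    have h2 : (0 : ℝ) ≤ ((2 * M).factorial : ℝ) * p := by positivity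
    linarith
  · have hA : (0 : ℝ) < (((2 * M) ^ (2 * M) * r : ℕ) : ℝ) := by exact_mod_cast h0
    have hB : (((2 * M) ^ (2 * M) * r : ℕ) : ℝ) < (((2 * M).factorial * n ^ M : ℕ) : ℝ) := by
      exact_mod_cast h
    refine ⟨(((2 * M).factorial * n ^ M : ℕ) : ℝ) / (((2 * M) ^ (2 * M) * r : ℕ) : ℝ) - 1, ?_, ?_⟩
    · rw [sub_pos, lt_div_iff₀ hA]
      linarith
    · intro c p hp hc
      have e1 : 1 + ((((2 * M).factorial * n ^ M : ℕ) : ℝ) / (((2 * M) ^ (2 * M) * r : ℕ) : ℝ) - 1) =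
          (((2 * M).factorial * n ^ M : ℕ) : ℝ) / (((2 * M) ^ (2 * M) * r : ℕ) : ℝ) := by ring
      rw [e1, div_mul_eq_mul_div, div_le_iff₀ hA]
      push_cast
      have h3 : ((2 * M).factorial : ℝ) * (2 * (M : ℝ)) ^ (2 * M) * ((n : ℝ) ^ M * c) ≤
          ((2 * M).factorial : ℝ) * (2 * (M : ℝ)) ^ (2 * M) * (r * p) :=
        mul_le_mul_of_nonneg_left hc (by positivity)
      nlinarith [h3]

/-- the numbers for `n ≥ 8`, `r ≤ n` -/
theorem num8 {n r : ℕ} (hn : 8 ≤ n) (hr : r ≤ n) :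
    (2 * 4) ^ (2 * 4) * r < (2 * 4).factorial * n ^ 4 := by
  have h1 : (2 * 4).factorial = 40320 := by decide
  rw [h1]
  have h2 : n ^ 4 = n * n ^ 3 := by ring
  have h3 : 8 ^ 3 ≤ n ^ 3 := Nat.pow_le_pow_left hn 3
  have h4 : 512 * n ≤ n ^ 4 := by
    rw [h2]
    nlinarith
  have h5 : 0 < n := by omega
  norm_num
  omega

/-- the stable set of the near index: the roots of a rational polynomial `p` -/
theorem exists_S0 {gam : Fin n → ℂ} (hinj : Function.Injective gam)
    (hint : ∀ u, IsIntegral ℤ (gam u)) {p : ℚ[X]} (hp : p ≠ 0) {l : Fin n}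
    (hl : aeval (gam l) p = 0) :
    ∃ S0 : Finset (Fin n), l ∈ S0 ∧ S0.card ≤ p.natDegree ∧
      ∀ (σ : AA →+* ℂ) (π : Equiv.Perm (Fin n)), Prm gam σ π → ∀ s ∈ S0, π s ∈ S0 := by
  classical
  refine ⟨univ.filter fun u => aeval (gam u) p = 0, by simp [hl], ?_, ?_⟩
  · have hp' : p.map (algebraMap ℚ ℂ) ≠ 0 := (Polynomial.map_ne_zero_iff (algebraMap ℚ ℂ).injective).2 hp
    have h1 : (univ.filter fun u => aeval (gam u) p = 0).card ≤
        (p.map (algebraMap ℚ ℂ)).roots.toFinset.card := by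
      refine card_le_card_of_injOn gam ?_ hinj.injOn
      intro u hu
      have hu' := (mem_filter.1 hu).2
      rw [mem_coe, Multiset.mem_toFinset, mem_roots hp', IsRoot, eval_map]
      exact hu'
    refine h1.trans ((Multiset.toFinset_card_le _).trans ((card_roots' _).trans ?_))
    exact natDegree_map_le
  · intro σ π hπ s hs
    rw [mem_filter] at hs ⊢
    refine ⟨mem_univ _, ?_⟩
    obtain ⟨a, ha⟩ : ∃ a : AA, (a : ℂ) = gam s := ⟨⟨gam s, tu_mem (hint s)⟩, rfl⟩
    have h1 : eval₂ (algebraMap ℚ AA) a p = 0 := by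
      apply (algebraMap AA ℂ).injective
      rw [map_zero, hom_eval₂]
      have e1 : (algebraMap AA ℂ).comp (algebraMap ℚ AA) = algebraMap ℚ ℂ := Subsingleton.elim _ _
      have e2 : algebraMap AA ℂ a = gam s := ha
      rw [e1, e2]
      exact hs.2
    have h2 := congrArg σ h1
    rw [map_zero, hom_eval₂] at h2
    have e1 : σ.comp (algebraMap ℚ AA) = algebraMap ℚ ℂ := Subsingleton.elim _ _
    rw [e1, hπ s a ha] at h2
    exact h2

/-- the stable set with the inequality needed in `far_m` / `far_r` -/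
theorem stab_count (M n r : ℕ) (h : (2 * M) ^ (2 * M) * r < (2 * M).factorial * n ^ M) :
    ∃ γ : ℝ, 0 < γ ∧ ∀ (nu : ℕ) (P : Fin (2 * M) → Ptd nu) (gs : Fin M → ℤ[X])
      (θ : Fin M → Fin n → ℂ) (g : ℤ[X]) (gam : Fin n → ℂ) (p : ℚ[X]) (l : Fin n),
      g.Monic → Rts g gam → p ≠ 0 → p.natDegree ≤ r → aeval (gam l) p = 0 →
      (∀ a, (gs a).Monic) → (∀ a, Irreducible ((gs a).map (Int.castRingHom ℚ))) →
      (∀ a, Rts (gs a) (θ a)) → (∀ a, Nonempty (LbG (P (cv a)) (v1 (θ a)) l)) →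
      (∀ a, TauA (θ a) gam (P (an a))) →
      ∃ PP : Finset (∀ v, Fin (P v).d), Stb P PP ∧ (fun v => (P v).i) ∈ PP ∧
        (1 + γ) * (((2 * M : ℕ) : ℝ) ^ (2 * M) * PP.card) ≤
          ((2 * M).factorial : ℝ) * ∏ v, ((P v).d : ℝ) := by
  obtain ⟨γ, hγ, hmain⟩ := exists_gam M n r h
  refine ⟨γ, hγ, ?_⟩
  intro nu P gs θ g gam p l hg hgam hp hpr hl hm hirr hθ hC hA
  obtain ⟨S0, hl0, hS1, hS2⟩ := exists_S0 hgam.2 (fun u => (gdG_one hg hgam).int u 0) hp hl
  obtain ⟨PP, h1, h2, h3⟩ := exists_PP P gs θ gam l S0 hl0 hS2 (fun σ => exists_prm hg hgam σ)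
    hm hirr hθ hC hA
  refine ⟨PP, h1, h2, hmain _ _ (prod_nonneg fun v _ => Nat.cast_nonneg _) ?_⟩
  have h4 : n ^ M * PP.card ≤ r * ∏ v, (P v).d := h3.trans (Nat.mul_le_mul_right _ (hS1.trans hpr))
  exact_mod_cast h4

end Pool.Agent.H37.TU
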