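import Pool.Agent.H37.TU.EXP

/-! # THEOREM U (MP_821da1_nt): the explicit clause with one explicit constant (helper37) -/

namespace Pool.Agent.H37.TU

open Finset Polynomial Pool.Agent.H72.ES Pool.Agent.H87.SA2 Pool.Agent.H87.AX Pool.Agent.H8.AW
  Pool.Agent.H52.AC Pool.Agent.H97.NW Pool.Agent.H34.AC Pool.Agent.H97.FB Pool.Agent.H97.TU

/-- the explicit constant -/
def Cx (m d : ℕ) : ℕ := 2 ^ (3 * m * d ^ 2).factorial

private theorem le2 (k : ℕ) : k ≤ 2 ^ k := Nat.lt_two_pow_self.le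

private theorem fac_le {n t : ℕ} (hnt : n ^ 2 ≤ t) : n.factorial ≤ 2 ^ t := by
  calc n.factorial ≤ n ^ n := Nat.factorial_le_pow n
    _ ≤ (2 ^ n) ^ n := Nat.pow_le_pow_left (le2 n) n
    _ = 2 ^ (n ^ 2) := by rw [← pow_mul, sq]
    _ ≤ 2 ^ t := Nat.pow_le_pow_right (by norm_num) hnt

theorem Ea_le {n m d : ℕ} (hn : 2 ≤ n) (hnd : n ≤ d) (hd : 3 ≤ d) (hm : 1 ≤ m) :
    Ea n m d ≤ Cx m d := by
  obtain ⟨t, ht⟩ : ∃ t, t = m * d ^ 2 := ⟨_, rfl⟩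
  have hd2 : 9 ≤ d ^ 2 := by nlinarith
  have hdt : d ^ 2 ≤ t := by rw [ht]; exact Nat.le_mul_of_pos_left _ hm
  have ht9 : 9 ≤ t := hd2.trans hdt
  have hmt : m ≤ t := by rw [ht]; exact Nat.le_mul_of_pos_right _ (by omega)
  have hdd : d ≤ t := (Nat.le_self_pow (by norm_num) d).trans hdt
  have hnt : n ≤ t := hnd.trans hdd
  have hn2 : n ^ 2 ≤ t := (Nat.pow_le_pow_left hnd 2).trans hdt
  have hmn : m * n ≤ t := by
    rw [ht]
    exact Nat.mul_le_mul_left _ (hnd.trans (Nat.le_self_pow (by norm_num) d))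
  have hmnn : m * n * n ≤ t := by
    rw [ht, mul_assoc, ← sq]
    exact Nat.mul_le_mul_left _ (Nat.pow_le_pow_left hnd 2)
  have hp : ∀ {a b : ℕ}, a ≤ b → 2 ^ a ≤ 2 ^ b := fun h => Nat.pow_le_pow_right (by norm_num) h
  have a1 : m + 1 ≤ 2 ^ t := (Nat.lt_two_pow_self (n := m)).trans_le (hp hmt)
  have a2 : n ≤ 2 ^ t := (le2 n).trans (hp hnt)
  have a3 : 10 ^ 14 ≤ 2 ^ (6 * t) := by
    calc 10 ^ 14 ≤ 2 ^ 54 := by norm_num
      _ ≤ 2 ^ (6 * t) := hp (by omega)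
  have a4 : d ^ 8 ≤ 2 ^ (8 * t) := by
    calc d ^ 8 ≤ (2 ^ t) ^ 8 := Nat.pow_le_pow_left ((le2 d).trans (hp hdd)) 8
      _ = 2 ^ (8 * t) := by rw [← pow_mul, mul_comm]
  have a5 : n ^ 11 ≤ 2 ^ (11 * t) := by
    calc n ^ 11 ≤ (2 ^ t) ^ 11 := Nat.pow_le_pow_left a2 11
      _ = 2 ^ (11 * t) := by rw [← pow_mul, mul_comm]
  have a6 : (m * n + 1) ^ 4 ≤ 2 ^ (4 * t) := by
    calc (m * n + 1) ^ 4 ≤ (2 ^ t) ^ 4 :=
          Nat.pow_le_pow_left ((Nat.lt_two_pow_self (n := m * n)).trans_le (hp hmn)) 4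
      _ = 2 ^ (4 * t) := by rw [← pow_mul, mul_comm]
  have a7 : n.factorial ^ 7 ≤ 2 ^ (7 * t) := by
    calc n.factorial ^ 7 ≤ (2 ^ t) ^ 7 := Nat.pow_le_pow_left (fac_le hn2) 7
      _ = 2 ^ (7 * t) := by rw [← pow_mul, mul_comm]
  have a8 : 14 * n ^ 2 ≤ 2 ^ (2 * t) := by
    calc 14 * n ^ 2 ≤ 2 ^ t * 2 ^ t := by
          refine Nat.mul_le_mul ?_ ((le2 _).trans (hp hn2))
          calc 14 ≤ 2 ^ 9 := by norm_num
            _ ≤ 2 ^ t := hp ht9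
      _ = 2 ^ (2 * t) := by rw [← pow_add]; congr 1; omega
  have a9 : (2 * n + 1) * (m * n) * n.factorial ≤ 3 * t * n.factorial := by
    refine Nat.mul_le_mul_right _ ?_
    calc (2 * n + 1) * (m * n) ≤ (3 * n) * (m * n) := Nat.mul_le_mul_right _ (by omega)
      _ = 3 * (m * n * n) := by ring
      _ ≤ 3 * t := Nat.mul_le_mul_left _ hmnn
  have a10 : (14 * n ^ 2) ^ ((2 * n + 1) * (m * n) * n.factorial) ≤
      2 ^ (2 * t * (3 * t * n.factorial)) := by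
    have h14 : 1 ≤ 14 * n ^ 2 := by nlinarith
    calc (14 * n ^ 2) ^ ((2 * n + 1) * (m * n) * n.factorial)
        ≤ (14 * n ^ 2) ^ (3 * t * n.factorial) := Nat.pow_le_pow_right h14 a9
      _ ≤ (2 ^ (2 * t)) ^ (3 * t * n.factorial) := Nat.pow_le_pow_left a8 _
      _ = 2 ^ (2 * t * (3 * t * n.factorial)) := by rw [← pow_mul]
  have hE : Ea n m d ≤ 2 ^ (38 * t + 2 * t * (3 * t * n.factorial)) := by
    unfold Ea
    calc (m + 1) * n * (10 ^ 14 * d ^ 8 * n ^ 11 * (m * n + 1) ^ 4 *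
          n.factorial ^ 7 * (14 * n ^ 2) ^ ((2 * n + 1) * (m * n) * n.factorial))
        ≤ 2 ^ t * 2 ^ t * (2 ^ (6 * t) * 2 ^ (8 * t) * 2 ^ (11 * t) * 2 ^ (4 * t) * 2 ^ (7 * t) *
            2 ^ (2 * t * (3 * t * n.factorial))) := by gcongr
      _ = 2 ^ (38 * t + 2 * t * (3 * t * n.factorial)) := by
          simp only [← pow_add]
          congr 1
          ring
  refine hE.trans ?_
  unfold Cx
  refine hp ?_
  have h3t : 3 * m * d ^ 2 = 3 * t := by rw [ht]; ring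
  rw [h3t]
  obtain ⟨s, hs⟩ : ∃ s, 3 * t = s + 3 := ⟨3 * t - 3, by omega⟩
  have hfs : n.factorial ≤ s.factorial := Nat.factorial_le (by omega)
  have hf1 : 1 ≤ n.factorial := Nat.factorial_pos n
  have e1 : (3 * t).factorial = (s + 3) * ((s + 2) * ((s + 1) * s.factorial)) := by
    rw [hs, Nat.factorial_succ, Nat.factorial_succ, Nat.factorial_succ]
  rw [e1]
  calc 38 * t + 2 * t * (3 * t * n.factorial)
      ≤ 38 * t * n.factorial + 2 * t * (3 * t * n.factorial) :=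
        Nat.add_le_add_right (Nat.le_mul_of_pos_right _ hf1) _
    _ = (38 * t + 6 * t * t) * n.factorial := by ring
    _ ≤ ((s + 3) * ((s + 2) * (s + 1))) * s.factorial := by
        refine Nat.mul_le_mul ?_ hfs
        have h1 : 2 * t ≤ s + 1 := by omega
        have h2 : 2 * t ≤ s + 2 := by omega
        have h3 : 3 * t ≤ s + 3 := by omega
        calc 38 * t + 6 * t * t ≤ 3 * t * (2 * t * (2 * t)) := by nlinarith
          _ ≤ (s + 3) * ((s + 2) * (s + 1)) :=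
            Nat.mul_le_mul h3 (Nat.mul_le_mul h2 h1)
    _ = _ := by ring

theorem Eb_le {n m d : ℕ} (hnd : n ≤ d) (hd : 3 ≤ d) (hm : 1 ≤ m) :
    Eb n m d ≤ Cx m d := by
  obtain ⟨t, ht⟩ : ∃ t, t = m * d ^ 2 := ⟨_, rfl⟩
  have hd2 : 9 ≤ d ^ 2 := by nlinarith
  have hdt : d ^ 2 ≤ t := by rw [ht]; exact Nat.le_mul_of_pos_left _ hm
  have ht9 : 9 ≤ t := hd2.trans hdt
  have hdd : d ≤ t := (Nat.le_self_pow (by norm_num) d).trans hdt
  have hnt : n ≤ t := hnd.trans hdd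
  have hn2 : n ^ 2 ≤ t := (Nat.pow_le_pow_left hnd 2).trans hdt
  have hmn : m * n ≤ t := by
    rw [ht]
    exact Nat.mul_le_mul_left _ (hnd.trans (Nat.le_self_pow (by norm_num) d))
  have hp : ∀ {a b : ℕ}, a ≤ b → 2 ^ a ≤ 2 ^ b := fun h => Nat.pow_le_pow_right (by norm_num) h
  have a2 : n ≤ 2 ^ t := (le2 n).trans (hp hnt)
  have a5 : n ^ 4 ≤ 2 ^ (4 * t) := by
    calc n ^ 4 ≤ (2 ^ t) ^ 4 := Nat.pow_le_pow_left a2 4
      _ = 2 ^ (4 * t) := by rw [← pow_mul, mul_comm]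
  have a6 : (m * n + 1) ^ 2 ≤ 2 ^ (2 * t) := by
    calc (m * n + 1) ^ 2 ≤ (2 ^ t) ^ 2 :=
          Nat.pow_le_pow_left ((Nat.lt_two_pow_self (n := m * n)).trans_le (hp hmn)) 2
      _ = 2 ^ (2 * t) := by rw [← pow_mul, mul_comm]
  have a7 : n.factorial ^ 6 ≤ 2 ^ (6 * t) := by
    calc n.factorial ^ 6 ≤ (2 ^ t) ^ 6 := Nat.pow_le_pow_left (fac_le hn2) 6
      _ = 2 ^ (6 * t) := by rw [← pow_mul, mul_comm]
  have hE : Eb n m d ≤ 2 ^ ((2 * t).factorial + 12 * t) := by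
    unfold Eb
    calc 2 ^ (2 * d ^ 2).factorial * (n ^ 4 * (m * n + 1) ^ 2 * n.factorial ^ 6)
        ≤ 2 ^ (2 * t).factorial * (2 ^ (4 * t) * 2 ^ (2 * t) * 2 ^ (6 * t)) := by
          refine Nat.mul_le_mul (hp (Nat.factorial_le (by omega))) ?_
          gcongr
      _ = 2 ^ ((2 * t).factorial + 12 * t) := by
          simp only [← pow_add]
          congr 1
          ring
  refine hE.trans ?_
  unfold Cx
  refine hp ?_
  have h3t : 3 * m * d ^ 2 = 3 * t := by rw [ht]; ring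
  rw [h3t]
  obtain ⟨s, hs⟩ : ∃ s, 3 * t = s + 1 := ⟨3 * t - 1, by omega⟩
  have e1 : (3 * t).factorial = (s + 1) * s.factorial := by
    rw [hs, Nat.factorial_succ]
  have hfs : (2 * t).factorial ≤ s.factorial := Nat.factorial_le (by omega)
  have hself : s ≤ s.factorial := Nat.self_le_factorial s
  rw [e1]
  nlinarith

/-- EXPLICIT CLAUSE with the constant `2^((3 m d^2)!)` -/
theorem expl2 {n m d : ℕ} (hn : 2 ≤ n) (hnd : n ≤ d) (hd : 3 ≤ d) (hm : 1 ≤ m) {f : ℤ[X][X]}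
    (hf : f.natDegree = n) (hc : ∀ i, (f.coeff i).natDegree ≤ m) (hl : (ldU m f).natDegree = n)
    (hsq : Squarefree ((ldU m f).map (Int.castRingHom ℚ)))
    (hp : ∀ p : ℚ[X], Irreducible p → p ∣ (ldU m f).map (Int.castRingHom ℚ) →
      (∃ x : ℝ, aeval x p = 0) → 3 * p.natDegree ≤ n) {B a : ℕ} (hB : 2 ≤ B)
    (hfB : ∀ i j, |(f.coeff i).coeff j| ≤ (B : ℤ)) (ha : B ^ 2 ^ (3 * m * d ^ 2).factorial ≤ a)
    (hirr : Irreducible ((fa f a).map (Int.castRingHom ℚ))) (F : MvPolynomial (Fin 2) ℤ)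
    (hF : Irreducible (MvPolynomial.map (Int.castRingHom ℚ) F)) (hFd : F.totalDegree ≤ d)
    (hing : INg (fa f a) F) (H : ℕ) (hFH : ∀ e, |F.coeff e| ≤ (H : ℤ)) (x y : ℤ)
    (h0 : vl F x y = 0) :
    max x.natAbs y.natAbs ≤ (a * H) ^ 2 ^ (3 * m * d ^ 2).factorial := by
  have h1 : B ^ Ea n m d ≤ a := (Nat.pow_le_pow_right (by omega) (Ea_le hn hnd hd hm)).trans ha
  refine (expl hn hd hf hc hl hsq hp hB hfB h1 hirr F hF hFd hing H hFH x y h0).trans ?_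
  have ha1 : 1 ≤ a := (Nat.one_le_pow _ _ (by omega)).trans ha
  have hH1 : 1 ≤ H := by
    have hF0 : F ≠ 0 := by
      rintro rfl
      rw [map_zero] at hF
      exact not_irreducible_zero hF
    obtain ⟨e, he⟩ := MvPolynomial.support_nonempty.2 hF0
    have h3 : F.coeff e ≠ 0 := MvPolynomial.mem_support_iff.1 he
    have h4 : 1 ≤ |F.coeff e| := Int.one_le_abs h3
    have h6 : (1 : ℤ) ≤ H := h4.trans (hFH e)
    exact_mod_cast h6
  exact Nat.pow_le_pow_right (Nat.mul_pos ha1 hH1) (Eb_le hnd hd hm)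

end Pool.Agent.H37.TU
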