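import Pool.Agent.H37.TU.SRD
import Pool.Agent.H87.AX.FN
import Pool.Agent.H97.TU.Defs2
import Pool.Agent.H97.TU.CEN

/-! # THEOREM U (MP_821da1_nt): the explicit clause (helper37)

`f ∈ ℤ[t][Z]` of degree `n` in `Z`, of degree at most `m` in `t`, `g = ldU m f` (the coefficient of `t^m`)
squarefree of degree `n`, every irreducible factor of `g` over `ℚ` with a real root of degree at most
`n / 3`. `Pool.Agent.H87.AX.all_explicit` is applied to the monic model of `t^m f(1/t, Z)`, `t = 1/a`. -/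

namespace Pool.Agent.H37.TU

open Finset Polynomial Pool.Agent.H72.ES Pool.Agent.H87.SA2 Pool.Agent.H87.AX Pool.Agent.H8.AW
  Pool.Agent.H52.AC Pool.Agent.H97.NW Pool.Agent.H34.AC Pool.Agent.H97.FB Pool.Agent.H97.TU

/-- the reversed family `t^m f(1/t, Z)` -/
noncomputable def rf (n m : ℕ) (f : ℤ[X][X]) : ℤ[X][X] :=
  ∑ i ∈ range (n + 1), C (reflect m (f.coeff i)) * X ^ i

theorem rf_coeff (n m : ℕ) (f : ℤ[X][X]) (i : ℕ) :
    (rf n m f).coeff i = if i ≤ n then reflect m (f.coeff i) else 0 := by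
  unfold rf
  rw [finsetSum_coeff]
  simp only [coeff_C_mul, coeff_X_pow, mul_ite, mul_one, mul_zero]
  rw [sum_ite_eq]
  simp only [mem_range, Nat.lt_succ_iff]

theorem ldU_coeff (m : ℕ) (f : ℤ[X][X]) (i : ℕ) : (ldU m f).coeff i = (f.coeff i).coeff m := by
  unfold ldU
  rw [finsetSum_coeff]
  simp only [coeff_C_mul, coeff_X_pow, mul_ite, mul_one, mul_zero]
  rw [sum_ite_eq]
  split_ifs with h
  · rfl
  · rw [mem_range] at h
    rw [coeff_eq_zero_of_natDegree_lt (by omega : f.natDegree < i), coeff_zero]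

variable {n m : ℕ} {f : ℤ[X][X]}

theorem rf_deg (hl : (ldU m f).natDegree = n) (hn : 1 ≤ n) :
    (rf n m f).natDegree = n ∧ (f.coeff n).coeff m ≠ 0 := by
  have h1 : (f.coeff n).coeff m ≠ 0 := by
    rw [← ldU_coeff]
    have h2 : (ldU m f).leadingCoeff ≠ 0 := by
      rw [Ne, leadingCoeff_eq_zero]
      intro h0
      rw [h0, natDegree_zero] at hl
      omega
    rwa [leadingCoeff, hl] at h2
  refine ⟨?_, h1⟩
  refine le_antisymm ?_ (le_natDegree_of_ne_zero ?_)
  · unfold rf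
    refine natDegree_sum_le_of_forall_le _ _ fun i hi => ?_
    refine (natDegree_C_mul_X_pow_le _ _).trans ?_
    have := mem_range.1 hi
    omega
  · rw [rf_coeff, if_pos le_rfl]
    intro h0
    apply h1
    have h3 := congrArg (fun p => p.coeff 0) h0
    simp only [coeff_reflect, coeff_zero] at h3
    rwa [revAt_le (Nat.zero_le m), Nat.sub_zero] at h3

theorem rf_cdeg (hc : ∀ i, (f.coeff i).natDegree ≤ m) (i : ℕ) :
    ((rf n m f).coeff i).natDegree ≤ m := by
  rw [rf_coeff]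
  split_ifs
  · exact natDegree_reflect_le.trans (max_le le_rfl (hc i))
  · simp

theorem rf_le {B : ℕ} (hB : ∀ i j, |(f.coeff i).coeff j| ≤ (B : ℤ)) (i j : ℕ) :
    |((rf n m f).coeff i).coeff j| ≤ (B : ℤ) := by
  rw [rf_coeff]
  split_ifs
  · rw [coeff_reflect]
    exact hB _ _
  · rw [coeff_zero, abs_zero]
    exact Int.natCast_nonneg B

theorem rf_eval0 {i : ℕ} (hi : i ≤ n) :
    ((rf n m f).coeff i).eval 0 = (ldU m f).coeff i := by
  rw [rf_coeff, if_pos hi, ← coeff_zero_eq_eval_zero, coeff_reflect,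
    revAt_le (Nat.zero_le m), Nat.sub_zero, ldU_coeff]

/-- the centre polynomial is the reduction of the monic model -/
theorem mo_rf_zero : (mo n (rf n m f)).map (evalRingHom 0) = cenU n (ldU m f) := by
  unfold mo cenU
  rw [Polynomial.map_add, Polynomial.map_pow, map_X, Polynomial.map_sum]
  congr 1
  refine sum_congr rfl fun i hi => ?_
  have hi' := mem_range.1 hi
  rw [Polynomial.map_mul, Polynomial.map_pow, map_X, map_C, coe_evalRingHom, eval_mul, eval_pow,
    rf_eval0 (by omega), rf_eval0 le_rfl]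

/-- relation between the monic model and the family -/
theorem mo_rel' {n : ℕ} (hn : 1 ≤ n) {f : ℤ[X][X]} (hd : f.natDegree = n) :
    (mo n f).comp (C (f.coeff n) * X) = C (f.coeff n ^ (n - 1)) * f := by
  have h1 : f = ∑ i ∈ range (n + 1), C (f.coeff i) * X ^ i := by
    conv_lhs => rw [f.as_sum_range_C_mul_X_pow, hd]
  unfold mo
  rw [add_comp, X_pow_comp, Polynomial.sum_comp, mul_pow]
  have hR : C (f.coeff n ^ (n - 1)) * f =
      C (f.coeff n ^ (n - 1)) * (∑ i ∈ range (n + 1), C (f.coeff i) * X ^ i) :=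
    congrArg (fun p => C (f.coeff n ^ (n - 1)) * p) h1
  rw [hR, mul_sum, sum_range_succ, add_comm (∑ i ∈ range n, _)]
  congr 1
  · have h2 : n = (n - 1) + 1 := by omega
    have h3 : (C (f.coeff n) : ℤ[X][X]) ^ n = C (f.coeff n ^ (n - 1)) * C (f.coeff n) := by
      conv_lhs => rw [h2, pow_succ, ← C_pow]
      rw [← h2]
    rw [h3, mul_assoc]
  · refine sum_congr rfl fun i hi => ?_
    have hi' := mem_range.1 hi
    rw [mul_comp, C_comp, X_pow_comp, mul_pow, ← mul_assoc, ← mul_assoc, ← C_pow, ← C_mul, ← C_mul]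
    congr 2
    have h3 : n - 1 = (n - 1 - i) + i := by omega
    conv_rhs => rw [h3, pow_add]
    ring

/-- the centre polynomial is separable -/
theorem cenU_sep (hn : 1 ≤ n) {g : ℤ[X]} (hd : g.natDegree = n)
    (hsq : Squarefree (g.map (Int.castRingHom ℚ))) :
    ((cenU n g).map (Int.castRingHom ℚ)).Separable := by
  obtain ⟨γ, hγ, hinj⟩ := cenU_rts hn hd hsq
  have h1 : ((cenU n g).map (Int.castRingHom ℂ)).Separable := by
    rw [hγ, separable_prod_X_sub_C_iff]
    exact hinj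
  have h2 : (cenU n g).map (Int.castRingHom ℂ) =
      ((cenU n g).map (Int.castRingHom ℚ)).map (algebraMap ℚ ℂ) := by
    rw [Polynomial.map_map]
    congr 1
  rw [h2] at h1
  exact (separable_map _).1 h1

/-- the monic model is squarefree -/
theorem mo_sqf (hn : 1 ≤ n) (hl : (ldU m f).natDegree = n)
    (hsq : Squarefree ((ldU m f).map (Int.castRingHom ℚ))) : Squarefree (mo n (rf n m f)) := by
  have hm := (mo_monic hn (rf n m f)).1
  have hs := (cenU_sep hn hl hsq).squarefree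
  intro P hP
  obtain ⟨Q, hQ⟩ := hP
  have hlu : IsUnit P.leadingCoeff := by
    have h1 := hm.leadingCoeff
    rw [hQ, leadingCoeff_mul, leadingCoeff_mul] at h1
    exact IsUnit.of_mul_eq_one (P.leadingCoeff * Q.leadingCoeff) (by rw [← h1]; ring)
  obtain ⟨φ, hφ⟩ : ∃ φ : ℤ[X] →+* ℚ, φ = (Int.castRingHom ℚ).comp (evalRingHom 0) := ⟨_, rfl⟩
  have hmap : (mo n (rf n m f)).map φ = (cenU n (ldU m f)).map (Int.castRingHom ℚ) := by
    rw [hφ, ← Polynomial.map_map, mo_rf_zero]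
  have h2 : P.map φ * P.map φ ∣ (cenU n (ldU m f)).map (Int.castRingHom ℚ) := by
    rw [← hmap, hQ, Polynomial.map_mul, Polynomial.map_mul]
    exact dvd_mul_right _ _
  have h3 := hs _ h2
  have h4 : φ P.leadingCoeff ≠ 0 := (hlu.map φ).ne_zero
  have h5 : (P.map φ).natDegree = P.natDegree := natDegree_map_of_leadingCoeff_ne_zero _ h4
  have h6 : P.natDegree = 0 := by
    rw [← h5]
    exact natDegree_eq_zero_of_isUnit h3
  rw [eq_C_of_natDegree_eq_zero h6] at hlu ⊢
  rw [leadingCoeff_C] at hlu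
  exact isUnit_C.2 hlu

/-- scaling does not raise the degree -/
theorem minpoly_scale {L : Type*} [Field L] [Algebra ℚ L] {z w : L} (c : ℚ)
    (hz : IsIntegral ℚ z) (hc : c ≠ 0) (hw : z = algebraMap ℚ L c * w) :
    (minpoly ℚ w).natDegree ≤ (minpoly ℚ z).natDegree := by
  have h0 : (minpoly ℚ z).comp (C c * X) ≠ 0 := by
    intro h
    rw [comp_eq_zero_iff] at h
    rcases h with h | ⟨-, h⟩
    · exact minpoly.ne_zero hz h
    · have h1 := congrArg (fun p => p.coeff 1) h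
      simp only [coeff_C_mul, coeff_X_one, mul_one, coeff_C, one_ne_zero, if_false] at h1
      exact hc h1
  have h1 : aeval w ((minpoly ℚ z).comp (C c * X)) = 0 := by
    rw [aeval_comp, map_mul, aeval_C, aeval_X, ← hw]
    exact minpoly.aeval ℚ z
  have h2 := natDegree_le_of_dvd (minpoly.dvd ℚ w h1) h0
  refine h2.trans (natDegree_comp_le.trans ?_)
  have h3 : (C c * X : ℚ[X]).natDegree ≤ 1 := (natDegree_C_mul_le _ _).trans natDegree_X_le
  calc (minpoly ℚ z).natDegree * (C c * X : ℚ[X]).natDegree ≤ (minpoly ℚ z).natDegree * 1 :=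
        Nat.mul_le_mul_left _ h3
    _ = _ := mul_one _

/-- the degrees of the real branches -/
theorem real_branch (hn : 1 ≤ n) (hl : (ldU m f).natDegree = n)
    (hsq : Squarefree ((ldU m f).map (Int.castRingHom ℚ))) {nu : ℕ}
    (hp : ∀ p : ℚ[X], Irreducible p → p ∣ (ldU m f).map (Int.castRingHom ℚ) →
      (∃ x : ℝ, aeval x p = 0) → 3 * p.natDegree ≤ nu) (G : (PowerSeries ℚ)[X]) (hG : G.Monic)
    (hGi : Irreducible G) (hdv : G ∣ fQ (mo n (rf n m f))) (hR : RealRoot G) :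
    3 * G.natDegree ≤ nu := by
  obtain ⟨g, hg⟩ : ∃ g, g = ldU m f := ⟨_, rfl⟩
  rw [← hg] at hl hsq hp
  have hred : (fQ (mo n (rf n m f))).map (PowerSeries.constantCoeff (R := ℚ)) =
      (cenU n g).map (Int.castRingHom ℚ) := by
    unfold fQ
    rw [Polynomial.map_map, hg, ← mo_rf_zero, Polynomial.map_map]
    congr 1
    apply Polynomial.ringHom_ext
    · intro a
      simp
    · simp
  have hGd : G.map (PowerSeries.constantCoeff (R := ℚ)) ∣ (cenU n g).map (Int.castRingHom ℚ) := by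
    rw [← hred]
    exact Polynomial.map_dvd _ hdv
  have hsep : (G.map (PowerSeries.constantCoeff (R := ℚ))).Separable :=
    (cenU_sep hn hl hsq).of_dvd hGd
  obtain ⟨e, he, ξ, hξ⟩ := hR
  obtain ⟨ξ0, hξ0⟩ : ∃ ξ0, ξ0 = PowerSeries.constantCoeff ξ := ⟨_, rfl⟩
  have hroot : aeval ξ0 (G.map (PowerSeries.constantCoeff (R := ℚ))) = 0 := by
    have h1 := congrArg (PowerSeries.constantCoeff (R := ℝ)) hξ
    rw [map_zero, eval_map, hom_eval₂, ← hξ0] at h1
    rw [aeval_def, eval₂_map]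
    have h2 : ((PowerSeries.constantCoeff (R := ℝ)).comp ((exr ℝ e he).comp
        (PowerSeries.map (algebraMap ℚ ℝ)))) =
        (algebraMap ℚ ℝ).comp (PowerSeries.constantCoeff (R := ℚ)) := by
      refine RingHom.ext fun a => ?_
      simp only [RingHom.comp_apply]
      rw [← PowerSeries.coeff_zero_eq_constantCoeff_apply, coeff_exr, if_pos (dvd_zero e),
        Nat.zero_div, PowerSeries.coeff_map, PowerSeries.coeff_zero_eq_constantCoeff_apply]
    rw [← h2]
    exact h1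
  have h1 := srd hG hGi hsep hroot
  -- the root of the centre
  have hgn : g.coeff n ≠ 0 := by
    have h2 : g.leadingCoeff ≠ 0 := by
      rw [Ne, leadingCoeff_eq_zero]
      rintro h0
      rw [h0, natDegree_zero] at hl
      omega
    rwa [leadingCoeff, hl] at h2
  have hgR : ((g.coeff n : ℤ) : ℝ) ≠ 0 := by exact_mod_cast hgn
  obtain ⟨z, hz⟩ : ∃ z, z = ξ0 / ((g.coeff n : ℤ) : ℝ) := ⟨_, rfl⟩
  have hξz : ξ0 = ((g.coeff n : ℤ) : ℝ) * z := by
    rw [hz]
    field_simp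
  have hcen : aeval ξ0 (cenU n g) = 0 := by
    obtain ⟨w, hw⟩ := hGd
    have h2 : aeval ξ0 ((cenU n g).map (Int.castRingHom ℚ)) = 0 := by
      rw [hw, map_mul, hroot, zero_mul]
    have h3 := aeval_map_algebraMap ℚ ξ0 (cenU n g)
    rw [algebraMap_int_eq] at h3
    rwa [h3] at h2
  have hgz : aeval z g = 0 := by
    have h2 := congrArg (fun p => aeval z p) (cenU_rel hn hl)
    simp only [aeval_comp, map_mul, aeval_C, aeval_X, map_pow] at h2
    have h3 : (algebraMap ℤ ℝ) (g.coeff n) = ((g.coeff n : ℤ) : ℝ) := by simp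
    rw [h3, ← hξz, hcen] at h2
    exact (mul_eq_zero.1 h2.symm).resolve_left (pow_ne_zero _ hgR)
  have hgzQ : aeval z (g.map (Int.castRingHom ℚ)) = 0 := by
    have h3 := aeval_map_algebraMap ℚ z g
    rw [algebraMap_int_eq] at h3
    rw [h3, hgz]
  have hgQ0 : g.map (Int.castRingHom ℚ) ≠ 0 := hsq.ne_zero
  have hzi : IsIntegral ℚ z := by
    have : IsAlgebraic ℚ z := ⟨_, hgQ0, hgzQ⟩
    exact this.isIntegral
  have h2 := hp (minpoly ℚ z) (minpoly.irreducible hzi) (minpoly.dvd ℚ z hgzQ)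
    ⟨z, minpoly.aeval ℚ z⟩
  have hc : ((g.coeff n : ℤ) : ℚ)⁻¹ ≠ 0 := inv_ne_zero (by exact_mod_cast hgn)
  have h3 : (minpoly ℚ ξ0).natDegree ≤ (minpoly ℚ z).natDegree := by
    refine minpoly_scale _ hzi hc ?_
    rw [hξz]
    simp only [eq_ratCast, Rat.cast_inv, Rat.cast_intCast]
    field_simp
  omega

private theorem ex_root (g : ℤ[X]) {R : Type*} [CommRing R]
    (φ : AdjoinRoot (g.map (Int.castRingHom ℚ)) →+* R) :
    eval₂ (Int.castRingHom R) (φ (AdjoinRoot.root (g.map (Int.castRingHom ℚ)))) g = 0 := by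
  have h := congrArg φ (AdjoinRoot.eval₂_root (g.map (Int.castRingHom ℚ)))
  rw [map_zero, hom_eval₂, eval₂_map] at h
  have h1 : (φ.comp (AdjoinRoot.of (g.map (Int.castRingHom ℚ)))).comp (Int.castRingHom ℚ) =
      Int.castRingHom R := Subsingleton.elim _ _
  rwa [h1] at h

private theorem ex_infn (g : ℤ[X]) (F : MvPolynomial (Fin 2) ℤ)
    [Fact (Irreducible (g.map (Int.castRingHom ℚ)))] (h : INg g F) :
    INFR (AdjoinRoot (g.map (Int.castRingHom ℚ))) F := by
  intro K _ _ hK X Y hXY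
  rcases h K hK X Y hXY with h1 | ⟨θ, hθ⟩
  · exact Or.inl h1
  · refine Or.inr ⟨AdjoinRoot.lift (algebraMap ℚ K) θ ?_⟩
    rw [eval₂_map]
    have h1 : (algebraMap ℚ K).comp (Int.castRingHom ℚ) = algebraMap ℤ K := Subsingleton.elim _ _
    rw [h1]
    exact hθ

/-- the value of the reversed family -/
theorem rf_eval (hf : f.natDegree = n) (hc : ∀ i, (f.coeff i).natDegree ≤ m) {a : ℕ}
    (ha : 1 ≤ a) : (rf n m f).map (eval₂RingHom (Int.castRingHom ℚ) (((1 : ℕ) : ℚ) / a)) =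
      C (((a : ℚ) ^ m)⁻¹) * (fa f a).map (Int.castRingHom ℚ) := by
  have ha0 : (a : ℚ) ≠ 0 := by
    have : a ≠ 0 := by omega
    exact_mod_cast this
  ext i
  rw [coeff_map, coeff_C_mul, coeff_map]
  unfold fa
  rw [coeff_map, rf_coeff]
  split_ifs with hi
  · have hinv : Invertible (a : ℚ) := invertibleOfNonzero ha0
    have h1 := eval₂_reflect_mul_pow (Int.castRingHom ℚ) (a : ℚ) m (f.coeff i) (hc i)
    have h2 : (⅟(a : ℚ)) = ((1 : ℕ) : ℚ) / a := by
      rw [invOf_eq_inv]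
      push_cast
      rw [one_div]
    rw [h2] at h1
    rw [coe_eval₂RingHom, coe_evalRingHom]
    have h3 : eval₂ (Int.castRingHom ℚ) (a : ℚ) (f.coeff i) =
        (Int.castRingHom ℚ) ((f.coeff i).eval (a : ℤ)) := by
      rw [← eval₂_at_apply]
      simp
    rw [← h3, ← h1]
    field_simp
  · rw [coeff_eq_zero_of_natDegree_lt (by omega : f.natDegree < i)]
    simp

/-- the exponent of the threshold -/
def Ea (n m d : ℕ) : ℕ := (m + 1) * n * (10 ^ 14 * d ^ 8 * n ^ 11 * (m * n + 1) ^ 4 *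
  n.factorial ^ 7 * (14 * n ^ 2) ^ ((2 * n + 1) * (m * n) * n.factorial))

/-- the exponent of the bound -/
def Eb (n m d : ℕ) : ℕ := 2 ^ (2 * d ^ 2).factorial * (n ^ 4 * (m * n + 1) ^ 2 * n.factorial ^ 6)

/-- EXPLICIT CLAUSE -/
theorem expl {n m d : ℕ} (hn : 2 ≤ n) (hd : 3 ≤ d) {f : ℤ[X][X]} (hf : f.natDegree = n)
    (hc : ∀ i, (f.coeff i).natDegree ≤ m) (hl : (ldU m f).natDegree = n)
    (hsq : Squarefree ((ldU m f).map (Int.castRingHom ℚ)))
    (hp : ∀ p : ℚ[X], Irreducible p → p ∣ (ldU m f).map (Int.castRingHom ℚ) →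
      (∃ x : ℝ, aeval x p = 0) → 3 * p.natDegree ≤ n) {B a : ℕ} (hB : 2 ≤ B)
    (hfB : ∀ i j, |(f.coeff i).coeff j| ≤ (B : ℤ)) (ha : B ^ Ea n m d ≤ a)
    (hirr : Irreducible ((fa f a).map (Int.castRingHom ℚ))) (F : MvPolynomial (Fin 2) ℤ)
    (hF : Irreducible (MvPolynomial.map (Int.castRingHom ℚ) F)) (hFd : F.totalDegree ≤ d)
    (hing : INg (fa f a) F) (H : ℕ) (hFH : ∀ e, |F.coeff e| ≤ (H : ℤ)) (x y : ℤ)
    (h0 : vl F x y = 0) : max x.natAbs y.natAbs ≤ (a * H) ^ Eb n m d := by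
  have hn1 : 1 ≤ n := by omega
  have hfac : 1 ≤ n.factorial := Nat.factorial_pos n
  -- the size of `a`
  have hm1 : 1 ≤ m + 1 := by omega
  obtain ⟨E, hE⟩ : ∃ E, E = 10 ^ 14 * d ^ 8 * n ^ 11 * (m * n + 1) ^ 4 *
    n.factorial ^ 7 * (14 * n ^ 2) ^ ((2 * n + 1) * (m * n) * n.factorial) := ⟨_, rfl⟩
  have hEa : Ea n m d = (m + 1) * n * E := by
    unfold Ea
    rw [hE]
  have hE1 : 1 ≤ E := by
    rw [hE]
    have h1 : 0 < 14 * n ^ 2 := by positivity
    have h2 : 0 < (14 * n ^ 2) ^ ((2 * n + 1) * (m * n) * n.factorial) := Nat.pow_pos h1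
    have : 0 < 10 ^ 14 * d ^ 8 * n ^ 11 * (m * n + 1) ^ 4 * n.factorial ^ 7 := by positivity
    exact Nat.mul_pos this h2
  have hBm : (m + 1) * B ≤ B ^ (m + 1) := by
    have h1 : m + 1 ≤ 2 ^ m := Nat.lt_two_pow_self
    have h2 : 2 ^ m ≤ B ^ m := Nat.pow_le_pow_left hB m
    calc (m + 1) * B ≤ B ^ m * B := Nat.mul_le_mul_right _ (h1.trans h2)
      _ = B ^ (m + 1) := (pow_succ _ _).symm
  have hN : (((m + 1) * B) ^ n * 1) ^ E1 (d * (d + 1)) n (m * n) ≤ a := by
    calc (((m + 1) * B) ^ n * 1) ^ E1 (d * (d + 1)) n (m * n)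
        ≤ (((m + 1) * B) ^ n * 1) ^ E := by
          refine Nat.pow_le_pow_right ?_ ?_
          · have : 0 < (m + 1) * B := Nat.mul_pos hm1 (by omega)
            positivity
          · rw [hE]
            exact E1_le hd
      _ ≤ (B ^ ((m + 1) * n)) ^ E := by
          refine Nat.pow_le_pow_left ?_ _
          rw [mul_one, pow_mul]
          exact Nat.pow_le_pow_left hBm _
      _ = B ^ Ea n m d := by rw [← pow_mul, hEa]
      _ ≤ a := ha
  have hBa : B + 1 ≤ a := by
    have h1 : B ^ 2 ≤ B ^ Ea n m d := by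
      refine Nat.pow_le_pow_right (by omega) ?_
      rw [hEa]
      calc 2 = 1 * 2 * 1 := rfl
        _ ≤ (m + 1) * n * E := Nat.mul_le_mul (Nat.mul_le_mul hm1 hn) hE1
    have h2 : B ^ 2 ≤ a := h1.trans ha
    nlinarith
  have ha1 : 1 ≤ a := by omega
  have haQ : (a : ℚ) ≠ 0 := by
    have : a ≠ 0 := by omega
    exact_mod_cast this
  -- the monic model
  obtain ⟨hrd, hlead⟩ := rf_deg hl hn1
  obtain ⟨hmon, hmd⟩ := mo_monic hn1 (rf n m f)
  have hsqf := mo_sqf hn1 hl hsq (f := f)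
  have hmm : ∀ j, ((mo n (rf n m f)).coeff j).natDegree ≤ m * n := fun j =>
    (mo_deg hn1 (rf_cdeg hc) j).trans (Nat.mul_le_mul_left _ (Nat.sub_le _ _))
  have hmB : ∀ j i, |((mo n (rf n m f)).coeff j).coeff i| ≤ ((((m + 1) * B) ^ n : ℕ) : ℤ) :=
    fun j i => mo_le hn1 (by omega) (rf_cdeg hc) (rf_le hfB) j i
  have hB2 : 2 ≤ ((m + 1) * B) ^ n := by
    have h1 : 2 ≤ (m + 1) * B := by nlinarith
    calc 2 ≤ (m + 1) * B := h1
      _ = ((m + 1) * B) ^ 1 := (pow_one _).symm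
      _ ≤ _ := Nat.pow_le_pow_right (by omega) hn1
  -- the fibre
  have hcn : (f.coeff n).eval (a : ℤ) ≠ 0 := by
    refine mo_nz ?_ (hfB n) hBa
    intro h
    rw [h, coeff_zero] at hlead
    exact hlead rfl
  have hfan : (fa f a).natDegree = n := by
    unfold fa
    refine le_antisymm (natDegree_map_le.trans hf.le) (le_natDegree_of_ne_zero ?_)
    rw [coeff_map, coe_evalRingHom]
    exact hcn
  have hQn : ((fa f a).map (Int.castRingHom ℚ)).natDegree = n := by
    rw [natDegree_map_eq_of_injective (RingHom.injective_int _), hfan]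
  have hfact : Fact (Irreducible ((fa f a).map (Int.castRingHom ℚ))) := ⟨hirr⟩
  have hNF : NumberField (AdjoinRoot ((fa f a).map (Int.castRingHom ℚ))) :=
    { to_charZero := charZero_of_injective_algebraMap (algebraMap ℚ _).injective
      to_finiteDimensional := (AdjoinRoot.powerBasis hirr.ne_zero).finite }
  obtain ⟨ζ, hζ⟩ : ∃ ζ, ζ = AdjoinRoot.root ((fa f a).map (Int.castRingHom ℚ)) := ⟨_, rfl⟩
  obtain ⟨ev, hev⟩ : ∃ ev : ℤ[X] →+* ℚ,
    ev = eval₂RingHom (Int.castRingHom ℚ) (((1 : ℕ) : ℚ) / a) := ⟨_, rfl⟩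
  obtain ⟨l, hlq⟩ : ∃ l : ℚ, l = ev ((rf n m f).coeff n) := ⟨_, rfl⟩
  have hl0 : l ≠ 0 := by
    have h1 := congrArg (fun p => p.coeff n) (rf_eval hf hc ha1)
    simp only [coeff_map, coeff_C_mul] at h1
    rw [hlq, hev, h1]
    refine mul_ne_zero (inv_ne_zero (pow_ne_zero _ haQ)) ?_
    unfold fa
    rw [coeff_map, coe_evalRingHom]
    intro h
    apply hcn
    have : (((f.coeff n).eval (a : ℤ) : ℤ) : ℚ) = 0 := h
    exact_mod_cast this
  have hζ0 : aeval ζ ((fa f a).map (Int.castRingHom ℚ)) = 0 := by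
    rw [hζ]
    exact AdjoinRoot.eval₂_root _
  have hξ0 : aeval (algebraMap ℚ _ l * ζ) (fiba (mo n (rf n m f)) 1 a) = 0 := by
    have h1 := congrArg (fun p => p.map ev) (mo_rel' hn1 hrd)
    simp only [Polynomial.map_mul, map_comp, map_C, map_X, map_pow] at h1
    rw [← hlq, hev, rf_eval hf hc ha1] at h1
    have h2 := congrArg (fun p => aeval ζ p) h1
    simp only [aeval_comp, map_mul, aeval_C, aeval_X] at h2
    rw [hζ0, mul_zero, mul_zero] at h2
    exact h2
  have hmin : (minpoly ℚ ζ).natDegree = n := by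
    have h1 : minpoly ℚ ζ = ((fa f a).map (Int.castRingHom ℚ)) *
        C (((fa f a).map (Int.castRingHom ℚ)).leadingCoeff⁻¹) := by
      rw [hζ]
      exact AdjoinRoot.minpoly_root hirr.ne_zero
    rw [h1, natDegree_mul_C (inv_ne_zero (leadingCoeff_ne_zero.2 hirr.ne_zero)), hQn]
  have hξ3 : n ≤ (minpoly ℚ (algebraMap ℚ _ l * ζ)).natDegree := by
    rw [← hmin]
    exact minpoly_scale l (Algebra.IsIntegral.isIntegral _) hl0 rfl
  have hmain := all_explicit hd hmon hsqf hmd hmm hB2 hmB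
    (nu := n) (real_branch hn1 hl hsq hp) le_rfl hN _ hξ0 hξ3 F hFd hF (ex_infn _ F hing) x y h0
  -- the bound
  have hFs : (F.support.sup fun e => (F.coeff e).natAbs) ≤ H := by
    refine Finset.sup_le fun e _ => ?_
    have h1 := hFH e
    rw [Int.abs_eq_natAbs] at h1
    exact_mod_cast h1
  have hpos : 1 ≤ a * H := by
    have hF0 : F ≠ 0 := by
      rintro rfl
      rw [map_zero] at hF
      exact not_irreducible_zero hF
    obtain ⟨e, he⟩ := MvPolynomial.support_nonempty.2 hF0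
    have h3 : F.coeff e ≠ 0 := MvPolynomial.mem_support_iff.1 he
    have h4 : 1 ≤ |F.coeff e| := Int.one_le_abs h3
    have h5 := hFH e
    have h6 : (1 : ℤ) ≤ H := h4.trans h5
    have h7 : 1 ≤ H := by exact_mod_cast h6
    exact Nat.mul_pos ha1 h7
  have h1 : ((max x.natAbs y.natAbs : ℕ) : ℤ) ≤ (((a * H) ^ Eb n m d : ℕ) : ℤ) := by
    have e1 : ((max x.natAbs y.natAbs : ℕ) : ℤ) = max |x| |y| := by
      rw [Int.abs_eq_natAbs, Int.abs_eq_natAbs]
      push_cast
      rfl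
    rw [e1]
    refine hmain.trans ?_
    push_cast
    have h2 : (a : ℤ) * ((F.support.sup fun e => (F.coeff e).natAbs : ℕ) : ℤ) ≤ (a : ℤ) * H := by
      refine mul_le_mul_of_nonneg_left ?_ (Int.natCast_nonneg a)
      exact_mod_cast hFs
    have h3 : (1 : ℤ) ≤ (a : ℤ) * H := by exact_mod_cast hpos
    refine (pow_le_pow_left₀ (by positivity) h2 _).trans ?_
    exact pow_le_pow_right₀ h3 (E2X_le hd hn1)
  exact_mod_cast h1

end Pool.Agent.H37.TU
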