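import Pool.Agent.H37.TU.EXN

/-! # THEOREM V (MP_821da1_nt): the explicit clause for all families (helper37)

`F ∈ ℤ[t][X]` monic in `X` of degree `n`, of degree at most `m` in `t`, squarefree; every monic irreducible
factor over `ℚ⟦t⟧` with a root in `ℝ⟦t^(1/e)⟧` has degree at most `n / 3`; fibre `F(1/a, X)`. -/

namespace Pool.Agent.H37.TU

open Finset Polynomial Pool.Agent.H72.ES Pool.Agent.H87.SA2 Pool.Agent.H87.AX Pool.Agent.H8.AW
  Pool.Agent.H52.AC Pool.Agent.H97.NW Pool.Agent.H34.AC Pool.Agent.H97.FB Pool.Agent.H97.TU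

/-- a squarefree family: irreducible over `ℂ` is enough -/
theorem sqf_of_irr {F : ℤ[X][X]} (hF : F.Monic)
    (hirr : Irreducible (F.map (mapRingHom (Int.castRingHom ℂ)))) : Squarefree F := by
  have h1 : Irreducible F :=
    hF.irreducible_of_irreducible_map (mapRingHom (Int.castRingHom ℂ)) F hirr
  exact h1.squarefree

/-- EXPLICIT CLAUSE for all families, constant `2^((3 m d^2)!)` -/
theorem expl3 {n m d : ℕ} (hn : 2 ≤ n) (hnd : n ≤ d) (hd : 3 ≤ d) (hm : 1 ≤ m) {F : ℤ[X][X]}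
    (hF : F.Monic) (hsq : Squarefree F) (hFn : F.natDegree = n)
    (hc : ∀ i, (F.coeff i).natDegree ≤ m)
    (hp : ∀ P : (PowerSeries ℚ)[X], P.Monic → Irreducible P → P ∣ fQ F → RealRoot P →
      3 * P.natDegree ≤ n) {B a : ℕ} (hB : 2 ≤ B)
    (hFB : ∀ i j, |(F.coeff i).coeff j| ≤ (B : ℤ)) (ha : B ^ 2 ^ (3 * m * d ^ 2).factorial ≤ a)
    (hirr : Irreducible (fiba F 1 a)) (Φ : MvPolynomial (Fin 2) ℤ)
    (hΦ : Irreducible (MvPolynomial.map (Int.castRingHom ℚ) Φ)) (hΦd : Φ.totalDegree ≤ d)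
    (hing : ∀ (K : Type) [Field K] [NumberField K], Nonempty (K →+* ℝ) →
      ∀ (X Y : LaurentSeries K), vl Φ X Y = 0 →
        (X ∈ (HahnSeries.ofPowerSeries ℤ K).range ∧ Y ∈ (HahnSeries.ofPowerSeries ℤ K).range) ∨
          ∃ θ : K, aeval θ (fiba F 1 a) = 0)
    (H : ℕ) (hΦH : ∀ e, |Φ.coeff e| ≤ (H : ℤ)) (x y : ℤ) (h0 : vl Φ x y = 0) :
    max x.natAbs y.natAbs ≤ (a * H) ^ 2 ^ (3 * m * d ^ 2).factorial := by
  have hn1 : 1 ≤ n := by omega
  have hfac : 1 ≤ n.factorial := Nat.factorial_pos n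
  -- the exponents
  have h14 : 0 < 14 * n ^ 2 := by positivity
  have hE1 : E1 (d * (d + 1)) n m ≤ 2 ^ (3 * m * d ^ 2).factorial := by
    refine (E1_le hd).trans (le_trans ?_ (Ea_le hn hnd hd hm))
    unfold Ea
    calc 10 ^ 14 * d ^ 8 * n ^ 11 * (m + 1) ^ 4 * n.factorial ^ 7 *
          (14 * n ^ 2) ^ ((2 * n + 1) * m * n.factorial)
        ≤ 10 ^ 14 * d ^ 8 * n ^ 11 * (m * n + 1) ^ 4 * n.factorial ^ 7 *
          (14 * n ^ 2) ^ ((2 * n + 1) * (m * n) * n.factorial) := by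
          refine Nat.mul_le_mul ?_ (Nat.pow_le_pow_right h14 ?_)
          · refine Nat.mul_le_mul_right _ (Nat.mul_le_mul_left _ (Nat.pow_le_pow_left ?_ 4))
            exact Nat.add_le_add_right (Nat.le_mul_of_pos_right _ hn1) 1
          · refine Nat.mul_le_mul_right _ (Nat.mul_le_mul_left _ ?_)
            exact Nat.le_mul_of_pos_right _ hn1
      _ ≤ _ := Nat.le_mul_of_pos_left _ (Nat.mul_pos (by omega) hn1)
  have hE2 : E2X d n m ≤ 2 ^ (3 * m * d ^ 2).factorial := by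
    refine (E2X_le hd hn1).trans (le_trans ?_ (Eb_le hnd hd hm))
    unfold Eb
    refine Nat.mul_le_mul_left _ ?_
    refine Nat.mul_le_mul_right _ (Nat.mul_le_mul_left _ (Nat.pow_le_pow_left ?_ 2))
    exact Nat.add_le_add_right (Nat.le_mul_of_pos_right _ hn1) 1
  have hN : (B * 1) ^ E1 (d * (d + 1)) n m ≤ a := by
    rw [mul_one]
    exact (Nat.pow_le_pow_right (by omega) hE1).trans ha
  have ha1 : 1 ≤ a := (Nat.one_le_pow _ _ (by omega)).trans ha
  -- the field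
  have hQn : (fiba F 1 a).natDegree = n := by
    unfold fiba
    rw [hF.natDegree_map, hFn]
  have hQm : (fiba F 1 a).Monic := by
    unfold fiba
    exact hF.map _
  have hfact : Fact (Irreducible (fiba F 1 a)) := ⟨hirr⟩
  have hNF : NumberField (AdjoinRoot (fiba F 1 a)) :=
    { to_charZero := charZero_of_injective_algebraMap (algebraMap ℚ _).injective
      to_finiteDimensional := (AdjoinRoot.powerBasis hirr.ne_zero).finite }
  have hinf : INFR (AdjoinRoot (fiba F 1 a)) Φ := by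
    intro K _ _ hK X Y hXY
    rcases hing K hK X Y hXY with h1 | ⟨θ, hθ⟩
    · exact Or.inl h1
    · exact Or.inr ⟨AdjoinRoot.lift (algebraMap ℚ K) θ hθ⟩
  have hξ0 : aeval (AdjoinRoot.root (fiba F 1 a)) (fiba F 1 a) = 0 := AdjoinRoot.eval₂_root _
  have hmin : (minpoly ℚ (AdjoinRoot.root (fiba F 1 a))).natDegree = n := by
    have h1 : minpoly ℚ (AdjoinRoot.root (fiba F 1 a)) = (fiba F 1 a) *
        C ((fiba F 1 a).leadingCoeff⁻¹) := AdjoinRoot.minpoly_root hirr.ne_zero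
    rw [h1, natDegree_mul_C (inv_ne_zero (leadingCoeff_ne_zero.2 hirr.ne_zero)), hQn]
  have hmain := all_explicit hd hF hsq hFn hc hB hFB (nu := n) hp le_rfl hN _ hξ0 hmin.ge Φ hΦd
    hΦ hinf x y h0
  -- the bound
  have hFs : (Φ.support.sup fun e => (Φ.coeff e).natAbs) ≤ H := by
    refine Finset.sup_le fun e _ => ?_
    have h1 := hΦH e
    rw [Int.abs_eq_natAbs] at h1
    exact_mod_cast h1
  have hpos : 1 ≤ a * H := by
    have hF0 : Φ ≠ 0 := by
      rintro rfl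
      rw [map_zero] at hΦ
      exact not_irreducible_zero hΦ
    obtain ⟨e, he⟩ := MvPolynomial.support_nonempty.2 hF0
    have h3 : Φ.coeff e ≠ 0 := MvPolynomial.mem_support_iff.1 he
    have h4 : 1 ≤ |Φ.coeff e| := Int.one_le_abs h3
    have h5 := hΦH e
    have h6 : (1 : ℤ) ≤ H := h4.trans h5
    have h7 : 1 ≤ H := by exact_mod_cast h6
    exact Nat.mul_pos ha1 h7
  have h1 : ((max x.natAbs y.natAbs : ℕ) : ℤ) ≤
      (((a * H) ^ 2 ^ (3 * m * d ^ 2).factorial : ℕ) : ℤ) := by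
    have e1 : ((max x.natAbs y.natAbs : ℕ) : ℤ) = max |x| |y| := by
      rw [Int.abs_eq_natAbs, Int.abs_eq_natAbs]
      push_cast
      rfl
    rw [e1]
    refine hmain.trans ?_
    have h2 : (a : ℤ) * ((Φ.support.sup fun e => (Φ.coeff e).natAbs : ℕ) : ℤ) ≤ (a : ℤ) * H := by
      refine mul_le_mul_of_nonneg_left ?_ (Int.natCast_nonneg a)
      exact_mod_cast hFs
    have h3 : (1 : ℤ) ≤ (a : ℤ) * H := by exact_mod_cast hpos
    rw [Nat.cast_pow, Nat.cast_mul]
    refine (pow_le_pow_left₀ (by positivity) h2 _).trans ?_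
    exact pow_le_pow_right₀ h3 hE2
  exact_mod_cast h1

end Pool.Agent.H37.TU
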