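import Pool.Agent.H37.TU.EXV
import Pool.Agent.H8.TM.LOC
import Pool.Agent.H97.TV.RVI

/-! # THEOREM V (MP_821da1_nt): the explicit clause, factors of fibres of all families (helper37)

`f ∈ ℤ[t][Z]` absolutely irreducible of degree `n` in `Z`, at most `m` in `t`; `G` an irreducible factor of
the fibre `f(a, Z)`; every irreducible factor `P` of `f(1/u, Z)` over `ℚ((u))` with a root in
`ℝ((u^(1/e)))` has `3 deg P ≤ deg G`. -/

namespace Pool.Agent.H37.TU

open Finset Polynomial Pool.Agent.H72.ES Pool.Agent.H87.SA2 Pool.Agent.H87.AX Pool.Agent.H8.AW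
  Pool.Agent.H52.AC Pool.Agent.H97.NW Pool.Agent.H34.AC Pool.Agent.H97.FB Pool.Agent.H97.TU

private theorem exw_infn (g : ℤ[X]) (F : MvPolynomial (Fin 2) ℤ)
    [Fact (Irreducible (g.map (Int.castRingHom ℚ)))] (h : INg g F) :
    INFR (AdjoinRoot (g.map (Int.castRingHom ℚ))) F := by
  intro K _ _ hK X Y hXY
  rcases h K hK X Y hXY with h1 | ⟨θ, hθ⟩
  · exact Or.inl h1
  · refine Or.inr ⟨AdjoinRoot.lift (algebraMap ℚ K) θ ?_⟩
    rw [eval₂_map]
    have h1 : (algebraMap ℚ K).comp (Int.castRingHom ℚ) = algebraMap ℤ K := Subsingleton.elim _ _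
    rw [h1]
    exact hθ

/-- the fibre of the reversed monic model has a root -/
theorem exw_root {n m : ℕ} (hn : 1 ≤ n) {f : ℤ[X][X]} (hf : f.natDegree = n)
    (hc : ∀ i, (f.coeff i).natDegree ≤ m) {a : ℕ} (ha : 1 ≤ a) {k : Type} [Field k] [CharZero k]
    {ζ : k} (hζ : aeval ζ (fa f a) = 0) :
    aeval (algebraMap ℚ k (((f.coeff n).eval (a : ℤ) : ℤ) / (a : ℚ) ^ m) * ζ)
      (fiba (rv n m (mo n f)) 1 a) = 0 := by
  have ha0 : (a : ℚ) ≠ 0 := by exact_mod_cast (by omega : a ≠ 0)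
  obtain ⟨hmm, hmd⟩ := mo_monic hn f
  have hcd := mo_deg hn hc (n := n)
  obtain ⟨F, hF⟩ : ∃ F, F = rv n m (mo n f) := ⟨_, rfl⟩
  have hFd : F.natDegree = n := by rw [hF]; exact rv_natDegree hmm hmd
  have hFc : ∀ i, (F.coeff i).natDegree ≤ m * (n - i) := by
    intro i
    rw [hF]
    exact H97.TV.rv_cd hcd i
  have hrr : rv n m F = mo n f := by rw [hF]; exact H97.TV.rv_rv hmd
  have h1 := H97.TV.fib_comp (m := m) hFd hFc ha
  rw [hrr] at h1
  have hfib : fiba F 1 a = H97.TV.fibQ F a := by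
    unfold fiba H97.TV.fibQ
    congr 1
  rw [← hF, hfib]
  obtain ⟨w, hw⟩ : ∃ w : k, w = algebraMap ℚ k (((f.coeff n).eval (a : ℤ) : ℤ) / (a : ℚ) ^ m) * ζ :=
    ⟨_, rfl⟩
  rw [← hw]
  have h2 := congrArg (fun p => aeval w p) h1
  simp only [aeval_comp, map_mul, aeval_C, aeval_X] at h2
  have h3 : algebraMap ℚ k ((a : ℚ) ^ m) * w = (((f.coeff n).eval (a : ℤ) : ℤ) : k) * ζ := by
    rw [hw, ← mul_assoc, ← map_mul, mul_div_cancel₀ _ (pow_ne_zero _ ha0)]
    simp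
  rw [h3] at h2
  have h4 := congrArg (fun p => aeval ζ (fa p a)) (mo_rel' hn hf)
  have h5 : ∀ p q : ℤ[X][X], fa (p.comp q) a = (fa p a).comp (fa q a) := by
    intro p q
    unfold fa
    exact map_comp _ _ _
  have h6 : ∀ p q : ℤ[X][X], fa (p * q) a = fa p a * fa q a := by
    intro p q
    unfold fa
    exact Polynomial.map_mul _
  have h7 : ∀ c : ℤ[X], fa (C c) a = C (c.eval (a : ℤ)) := by
    intro c
    unfold fa
    rw [map_C]
    rfl
  have h8 : fa X a = X := by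
    unfold fa
    exact map_X _
  simp only [h5, h6, h7, h8, aeval_comp, map_mul, hζ, mul_zero, aeval_X, aeval_C] at h4
  have h9 : aeval ((((f.coeff n).eval (a : ℤ) : ℤ) : k) * ζ)
      ((fa (mo n f) a).map (Int.castRingHom ℚ)) = 0 := by
    have h10 := aeval_map_algebraMap ℚ ((((f.coeff n).eval (a : ℤ) : ℤ) : k) * ζ) (fa (mo n f) a)
    rw [algebraMap_int_eq] at h10
    rw [h10, ← h4]
    simp
  rw [h9] at h2
  have h11 : algebraMap ℚ k ((a : ℚ) ^ (m * n)) ≠ 0 := by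
    rw [Ne, map_eq_zero]
    exact pow_ne_zero _ ha0
  exact (mul_eq_zero.1 h2.symm).resolve_left h11

/-- EXPLICIT CLAUSE for factors of fibres of all families, constant `2^((3 m d^2)!)` -/
theorem explW {n m d : ℕ} (hn : 2 ≤ n) (hnd : n ≤ d) (hd : 3 ≤ d) (hm : 1 ≤ m) {f : ℤ[X][X]}
    (hf : f.natDegree = n) (hc : ∀ i, (f.coeff i).natDegree ≤ m)
    (hirrC : Irreducible (f.map (mapRingHom (Int.castRingHom ℂ)))) {G : ℤ[X]}
    (hG : Irreducible (G.map (Int.castRingHom ℚ))) {B a : ℕ} (hB : 2 ≤ B)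
    (hfB : ∀ i j, |(f.coeff i).coeff j| ≤ (B : ℤ)) (ha : B ^ 2 ^ (3 * m * d ^ 2).factorial ≤ a)
    (hdvd : G.map (Int.castRingHom ℚ) ∣ (fa f a).map (Int.castRingHom ℚ))
    (hp : ∀ P : (LaurentSeries ℚ)[X], Irreducible P → P ∣ H8.TM.atInf f → H8.TM.RealRt P →
      3 * P.natDegree ≤ G.natDegree) (F : MvPolynomial (Fin 2) ℤ)
    (hF : Irreducible (MvPolynomial.map (Int.castRingHom ℚ) F)) (hFd : F.totalDegree ≤ d)
    (hing : INg G F) (H : ℕ) (hFH : ∀ e, |F.coeff e| ≤ (H : ℤ)) (x y : ℤ) (h0 : vl F x y = 0) :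
    max x.natAbs y.natAbs ≤ (a * H) ^ 2 ^ (3 * m * d ^ 2).factorial := by
  have hn1 : 1 ≤ n := by omega
  have hm1 : 1 ≤ m + 1 := by omega
  -- the size of `a`
  have haE : B ^ Ea n m d ≤ a := (Nat.pow_le_pow_right (by omega) (Ea_le hn hnd hd hm)).trans ha
  obtain ⟨E, hE⟩ : ∃ E, E = 10 ^ 14 * d ^ 8 * n ^ 11 * (m * n + 1) ^ 4 *
    n.factorial ^ 7 * (14 * n ^ 2) ^ ((2 * n + 1) * (m * n) * n.factorial) := ⟨_, rfl⟩
  have hEa : Ea n m d = (m + 1) * n * E := by
    unfold Ea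
    rw [hE]
  have hBm : (m + 1) * B ≤ B ^ (m + 1) := by
    have h1 : m + 1 ≤ 2 ^ m := Nat.lt_two_pow_self
    have h2 : 2 ^ m ≤ B ^ m := Nat.pow_le_pow_left hB m
    calc (m + 1) * B ≤ B ^ m * B := Nat.mul_le_mul_right _ (h1.trans h2)
      _ = B ^ (m + 1) := (pow_succ _ _).symm
  have hN : (((m + 1) * B) ^ n * 1) ^ E1 (d * (d + 1)) n (m * n) ≤ a := by
    calc (((m + 1) * B) ^ n * 1) ^ E1 (d * (d + 1)) n (m * n)
        ≤ (((m + 1) * B) ^ n * 1) ^ E := by
          refine Nat.pow_le_pow_right ?_ ?_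
          · have : 0 < (m + 1) * B := Nat.mul_pos hm1 (by omega)
            positivity
          · rw [hE]
            exact E1_le hd
      _ ≤ (B ^ ((m + 1) * n)) ^ E := by
          refine Nat.pow_le_pow_left ?_ _
          rw [mul_one, pow_mul]
          exact Nat.pow_le_pow_left hBm _
      _ = B ^ Ea n m d := by rw [← pow_mul, hEa]
      _ ≤ a := haE
  have hBa : B + 1 ≤ a := by
    have h1 : B ^ 2 ≤ B ^ 2 ^ (3 * m * d ^ 2).factorial := by
      refine Nat.pow_le_pow_right (by omega) ?_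
      exact Nat.le_self_pow (Nat.factorial_ne_zero _) 2
    have h2 : B ^ 2 ≤ a := h1.trans ha
    nlinarith
  have ha1 : 1 ≤ a := by omega
  have haQ : (a : ℚ) ≠ 0 := by
    have : a ≠ 0 := by omega
    exact_mod_cast this
  -- the reversed monic model
  obtain ⟨hmm, hmd⟩ := mo_monic hn1 f
  have hcd := mo_deg hn1 hc (n := n)
  have hM := rv_monic (m := m) hmm hmd
  have hMd := rv_natDegree (m := m) hmm hmd
  have hirr2 := H97.TV.rv_irrC hn1 hmm hmd hcd (mo_irr hn1 hf hirrC)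
  have hsqf := sqf_of_irr hM hirr2
  have hMm : ∀ j, ((rv n m (mo n f)).coeff j).natDegree ≤ m * n := rv_cdeg hcd
  have hMB : ∀ j i, |((rv n m (mo n f)).coeff j).coeff i| ≤ ((((m + 1) * B) ^ n : ℕ) : ℤ) :=
    fun j i => H97.TV.rv_le (mo_le hn1 (by omega) hc hfB) j i
  have hB2 : 2 ≤ ((m + 1) * B) ^ n := by
    have h1 : 2 ≤ (m + 1) * B := by nlinarith
    calc 2 ≤ (m + 1) * B := h1
      _ = ((m + 1) * B) ^ 1 := (pow_one _).symm
      _ ≤ _ := Nat.pow_le_pow_right (by omega) hn1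
  -- the real branches
  obtain ⟨c, e, hc0, he0, hrel⟩ := H8.TM.rv_mo hn1 hf hc
  have hnu : ∀ g : (PowerSeries ℚ)[X], g.Monic → Irreducible g → g ∣ fQ (rv n m (mo n f)) →
      RealRoot g → 3 * g.natDegree ≤ G.natDegree := by
    intro g hg hgi hgd hgr
    obtain ⟨h1, h2, h3, h4⟩ := H8.TM.loc_gen hc0 he0 hrel hg hgi hgd hgr
    have h5 := hp _ h1 h2 h3
    rwa [h4] at h5
  -- the field
  have hfact : Fact (Irreducible (G.map (Int.castRingHom ℚ))) := ⟨hG⟩
  have hNF : NumberField (AdjoinRoot (G.map (Int.castRingHom ℚ))) :=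
    { to_charZero := charZero_of_injective_algebraMap (algebraMap ℚ _).injective
      to_finiteDimensional := (AdjoinRoot.powerBasis hG.ne_zero).finite }
  obtain ⟨ζ, hζ⟩ : ∃ ζ, ζ = AdjoinRoot.root (G.map (Int.castRingHom ℚ)) := ⟨_, rfl⟩
  have hζG : aeval ζ (G.map (Int.castRingHom ℚ)) = 0 := by
    rw [hζ]
    exact AdjoinRoot.eval₂_root _
  have hζ0 : aeval ζ (fa f a) = 0 := by
    obtain ⟨R, hR⟩ := hdvd
    have h1 := aeval_map_algebraMap ℚ ζ (fa f a)
    rw [algebraMap_int_eq] at h1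
    rw [← h1, hR, map_mul, hζG, zero_mul]
  have hcn : (f.coeff n).eval (a : ℤ) ≠ 0 := by
    refine mo_nz ?_ (hfB n) hBa
    have h3 : f.leadingCoeff ≠ 0 := by
      rw [Ne, leadingCoeff_eq_zero]
      rintro rfl
      simp at hf
      omega
    rwa [leadingCoeff, hf] at h3
  have hl0 : (((f.coeff n).eval (a : ℤ) : ℤ) / (a : ℚ) ^ m) ≠ 0 := by
    refine div_ne_zero ?_ (pow_ne_zero _ haQ)
    exact_mod_cast hcn
  have hξ0 := exw_root hn1 hf hc ha1 hζ0
  have hmin : (minpoly ℚ ζ).natDegree = G.natDegree := by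
    have h1 : minpoly ℚ ζ = (G.map (Int.castRingHom ℚ)) *
        C ((G.map (Int.castRingHom ℚ)).leadingCoeff⁻¹) := by
      rw [hζ]
      exact AdjoinRoot.minpoly_root hG.ne_zero
    rw [h1, natDegree_mul_C (inv_ne_zero (leadingCoeff_ne_zero.2 hG.ne_zero)),
      natDegree_map_eq_of_injective (RingHom.injective_int _)]
  have hξ3 : G.natDegree ≤ (minpoly ℚ (algebraMap ℚ _
      (((f.coeff n).eval (a : ℤ) : ℤ) / (a : ℚ) ^ m) * ζ)).natDegree := by
    rw [← hmin]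
    exact minpoly_scale _ (Algebra.IsIntegral.isIntegral _) hl0 rfl
  have hmain := all_explicit hd hM hsqf hMd hMm hB2 hMB (nu := G.natDegree) hnu le_rfl hN _ hξ0
    hξ3 F hFd hF (exw_infn _ F hing) x y h0
  -- the bound
  have hFs : (F.support.sup fun e => (F.coeff e).natAbs) ≤ H := by
    refine Finset.sup_le fun e _ => ?_
    have h1 := hFH e
    rw [Int.abs_eq_natAbs] at h1
    exact_mod_cast h1
  have hpos : 1 ≤ a * H := by
    have hF0 : F ≠ 0 := by
      rintro rfl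
      rw [map_zero] at hF
      exact not_irreducible_zero hF
    obtain ⟨e, he⟩ := MvPolynomial.support_nonempty.2 hF0
    have h3 : F.coeff e ≠ 0 := MvPolynomial.mem_support_iff.1 he
    have h4 : 1 ≤ |F.coeff e| := Int.one_le_abs h3
    have h5 := hFH e
    have h6 : (1 : ℤ) ≤ H := h4.trans h5
    have h7 : 1 ≤ H := by exact_mod_cast h6
    exact Nat.mul_pos ha1 h7
  have hE2 : E2X d n (m * n) ≤ 2 ^ (3 * m * d ^ 2).factorial := by
    refine (E2X_le hd hn1).trans (le_trans ?_ (Eb_le hnd hd hm))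
    exact le_rfl
  have h1 : ((max x.natAbs y.natAbs : ℕ) : ℤ) ≤
      (((a * H) ^ 2 ^ (3 * m * d ^ 2).factorial : ℕ) : ℤ) := by
    have e1 : ((max x.natAbs y.natAbs : ℕ) : ℤ) = max |x| |y| := by
      rw [Int.abs_eq_natAbs, Int.abs_eq_natAbs]
      push_cast
      rfl
    rw [e1]
    refine hmain.trans ?_
    have h2 : (a : ℤ) * ((F.support.sup fun e => (F.coeff e).natAbs : ℕ) : ℤ) ≤ (a : ℤ) * H := by
      refine mul_le_mul_of_nonneg_left ?_ (Int.natCast_nonneg a)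
      exact_mod_cast hFs
    have h3 : (1 : ℤ) ≤ (a : ℤ) * H := by exact_mod_cast hpos
    rw [Nat.cast_pow, Nat.cast_mul]
    refine (pow_le_pow_left₀ (by positivity) h2 _).trans ?_
    exact pow_le_pow_right₀ h3 hE2
  exact_mod_cast h1

end Pool.Agent.H37.TU
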