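import Pool.Agent.H97.TU.Defs
import Pool.Agent.H87.SA2.NPD
import Pool.Agent.H52.AC.PRM

/-! # THEOREM U (MP_821da1_nt): Puiseux data with different constant terms are unramified (helper37) -/

namespace Pool.Agent.H37.TU

open Finset Polynomial Pool.Agent.H72.ES Pool.Agent.H87.SA2 Pool.Agent.H8.AW Pool.Agent.H52.AC
  Pool.Agent.H97.NW Pool.Agent.H97.FB Pool.Agent.H97.TU

/-- different constant terms: all exponents are divisible by `e` -/
theorem pd_dvd {f : ℤ[X][X]} {d : ℕ} (pd : PData f d)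
    (h : Function.Injective fun i => PowerSeries.coeff 0 (pd.x i)) (i : Fin d) (k : ℕ)
    (hk : ¬ pd.e ∣ k) : PowerSeries.coeff k (pd.x i) = 0 := by
  have he : pd.e ≠ 0 := Nat.one_le_iff_ne_zero.1 pd.e_pos
  obtain ⟨ζ, hζ⟩ : ∃ ζ : ℂ, IsPrimitiveRoot ζ pd.e := ⟨_, Complex.isPrimitiveRoot_exp pd.e he⟩
  obtain ⟨ρ, hρ⟩ := perm_rot pd hζ.pow_eq_one
  have h1 : ρ i = i := by
    apply h
    change PowerSeries.coeff 0 (pd.x (ρ i)) = PowerSeries.coeff 0 (pd.x i)
    rw [← hρ, PowerSeries.coeff_rescale, pow_zero, one_mul]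
  have h2 := congrArg (PowerSeries.coeff k) (hρ i)
  rw [h1, PowerSeries.coeff_rescale] at h2
  have h3 : ζ ^ k ≠ 1 := fun h4 => hk ((hζ.pow_eq_one_iff_dvd k).1 h4)
  have h4 : (ζ ^ k - 1) * PowerSeries.coeff k (pd.x i) = 0 := by
    rw [sub_mul, one_mul, h2, sub_self]
  rcases mul_eq_zero.1 h4 with h5 | h5
  · exact absurd (sub_eq_zero.1 h5) h3
  · exact h5

/-- Puiseux data with different constant terms, normalised to `e = 1` -/
theorem pd_one {f : ℤ[X][X]} {d : ℕ} (pd : PData f d)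
    (h : Function.Injective fun i => PowerSeries.coeff 0 (pd.x i)) :
    ∃ pd' : PData f d, pd'.e = 1 ∧ pd'.q = pd.q ^ pd.e ∧ pd'.R = pd.R ^ pd.e ∧
      (∀ i k, PowerSeries.coeff k (pd'.x i) = PowerSeries.coeff (pd.e * k) (pd.x i)) ∧
      ∀ i, PowerSeries.coeff 0 (pd'.x i) = PowerSeries.coeff 0 (pd.x i) := by
  have he : pd.e ≠ 0 := Nat.one_le_iff_ne_zero.1 pd.e_pos
  obtain ⟨y, hy⟩ : ∃ y : Fin d → PowerSeries ℂ, ∀ i, y i =
      PowerSeries.mk fun k => PowerSeries.coeff (pd.e * k) (pd.x i) := ⟨_, fun _ => rfl⟩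
  have hyk : ∀ i k, PowerSeries.coeff k (y i) = PowerSeries.coeff (pd.e * k) (pd.x i) := by
    intro i k
    rw [hy, PowerSeries.coeff_mk]
  have hxy : ∀ i, exr ℂ pd.e he (y i) = pd.x i := by
    intro i
    ext k
    rw [coeff_exr]
    split_ifs with hk
    · rw [hyk, Nat.mul_div_cancel' hk]
    · exact (pd_dvd pd h i k hk).symm
  have hinjE : Function.Injective (exr ℂ pd.e he) := by
    intro a b hab
    ext k
    have h1 := congrArg (PowerSeries.coeff (pd.e * k)) hab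
    rw [coeff_exr, coeff_exr, if_pos (dvd_mul_right _ _), if_pos (dvd_mul_right _ _),
      Nat.mul_div_cancel_left _ pd.e_pos] at h1
    exact h1
  have hcomp : (exr ℂ pd.e he).comp (tq 1 (pd.q ^ pd.e)) = tq pd.e pd.q := by
    apply Polynomial.ringHom_ext
    · intro a
      simp [tq]
    · simp only [RingHom.comp_apply, tq, coe_eval₂RingHom, eval₂_X, pow_one, map_mul, exr_X]
      rw [exr_C, mul_pow, ← map_pow]
      push_cast
      rfl
  have hR : (1 : ℝ) ≤ pd.R := by linarith [pd.R_ge]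
  refine ⟨⟨1, pd.q ^ pd.e, le_rfl, Nat.pow_pos pd.q_pos, y, ?_, ?_, ?_, pd.R ^ pd.e, ?_, ?_⟩,
    rfl, rfl, rfl, hyk, ?_⟩
  · intro i j hij
    apply h
    change PowerSeries.coeff 0 (pd.x i) = PowerSeries.coeff 0 (pd.x j)
    have h1 := congrArg (PowerSeries.coeff 0) hij
    rwa [hyk, hyk, mul_zero] at h1
  · apply Polynomial.map_injective _ hinjE
    rw [Polynomial.map_map, hcomp, pd.split, Polynomial.map_prod]
    refine prod_congr rfl fun i _ => ?_
    rw [Polynomial.map_sub, Polynomial.map_X, Polynomial.map_C, hxy]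
  · intro i k
    rw [hyk]
    exact pd.integral i _
  · calc (2 : ℝ) ≤ pd.R := pd.R_ge
      _ = pd.R ^ 1 := (pow_one _).symm
      _ ≤ pd.R ^ pd.e := pow_le_pow_right₀ hR pd.e_pos
  · intro i k
    rw [hyk, ← pow_mul]
    refine (pd.growth i _).trans (pow_le_pow_right₀ hR ?_)
    have := pd.e_pos
    nlinarith
  · intro i
    rw [hyk, mul_zero]

/-- normalisation of a family -/
theorem fib_one {n b : ℕ} {γ : Fin n → ℂ} (hγ : Function.Injective γ) {f : ℤ[X][X]}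
    (F : FibU n b γ f) : ∃ F' : FibU n (b ^ n.factorial) γ f, F'.Fm.pd.e = 1 := by
  have hinj : Function.Injective fun i => PowerSeries.coeff 0 (F.Fm.pd.x i) := by
    intro i j hij
    apply hγ
    change PowerSeries.coeff 0 (F.Fm.pd.x i) = PowerSeries.coeff 0 (F.Fm.pd.x j) at hij
    rwa [F.cen, F.cen] at hij
  obtain ⟨pd', h1, h2, h3, -, h5⟩ := pd_one F.Fm.pd hinj
  have hb1 : 1 ≤ b := le_trans (by norm_num) F.Fm.B2
  have hf0 : n.factorial ≠ 0 := Nat.factorial_ne_zero n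
  have hbb : b ≤ b ^ n.factorial := Nat.le_self_pow hf0 b
  have hbbZ : (b : ℤ) ≤ ((b ^ n.factorial : ℕ) : ℤ) := by exact_mod_cast hbb
  have hR1 : (1 : ℝ) ≤ F.Fm.pd.R := by linarith [F.Fm.pd.R_ge]
  refine ⟨⟨⟨F.Fm.n2, F.Fm.m1, F.Fm.B2.trans hbb, F.Fm.monic, F.Fm.deg, F.Fm.cdeg,
    fun i j => (F.Fm.le i j).trans hbbZ, F.Fm.irr, pd', ?_, ?_, ?_, ?_⟩, ?_⟩, h1⟩
  · rw [h1]
    exact Nat.factorial_pos n
  · rw [h2]
    exact (Nat.pow_le_pow_left F.Fm.q_le _).trans (Nat.pow_le_pow_right hb1 F.Fm.e_le)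
  · rw [h3]
    push_cast
    have hb1R : (1 : ℝ) ≤ b := by exact_mod_cast hb1
    exact (pow_le_pow_left₀ (by linarith) F.Fm.R_le _).trans
      (pow_le_pow_right₀ hb1R F.Fm.e_le)
  · obtain ⟨u, v, c, hc, huv, hd, hle⟩ := F.Fm.bez
    exact ⟨u, v, c, hc, huv, hd, fun i => (hle i).trans hbbZ⟩
  · intro u
    rw [h5]
    exact F.cen u

end Pool.Agent.H37.TU
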