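import Mathlib

/-! # THEOREM U (MP_821da1_nt): degrees of irreducible factors over `ℚ⟦t⟧` (helper37)

`hensel_root`: a simple root of the reduction of `P ∈ K⟦t⟧[X]` lifts.
`srd`: an irreducible monic `G ∈ ℚ⟦t⟧[X]` whose reduction is separable and has the real root `ξ` has
degree at most `deg (minpoly ℚ ξ)`: lift the root to `η ∈ k⟦t⟧`, `k = ℚ[X]/minpoly`; the powers of `η` up to
`r = [k : ℚ]` are linearly dependent over `ℚ⟦t⟧` (coordinates), and `G` is irreducible over the field
of fractions. -/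

namespace Pool.Agent.H37.TU

open Finset Polynomial

/-- a simple root of the reduction lifts -/
theorem hensel_root {K : Type*} [Field K] (P : (PowerSeries K)[X]) (α : K)
    (h0 : (P.map PowerSeries.constantCoeff).eval α = 0)
    (h1 : (derivative (P.map PowerSeries.constantCoeff)).eval α ≠ 0) :
    ∃ η : PowerSeries K, P.eval η = 0 ∧ PowerSeries.constantCoeff η = α := by
  obtain ⟨D, hD⟩ : ∃ D, D = (derivative (P.map PowerSeries.constantCoeff)).eval α := ⟨_, rfl⟩
  rw [← hD] at h1
  -- the approximations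
  have hstep : ∀ N : ℕ, ∀ s : PowerSeries K, PowerSeries.constantCoeff s = α →
      PowerSeries.X ^ (N + 1) ∣ P.eval s → ∃ c : K,
        PowerSeries.X ^ (N + 2) ∣ P.eval (s + PowerSeries.C c * PowerSeries.X ^ (N + 1)) := by
    intro N s hs hdiv
    obtain ⟨u, hu⟩ := hdiv
    refine ⟨-(PowerSeries.constantCoeff u) / D, ?_⟩
    obtain ⟨c, hc⟩ : ∃ c, c = -(PowerSeries.constantCoeff u) / D := ⟨_, rfl⟩
    rw [← hc]
    obtain ⟨k, hk⟩ := P.binomExpansion s (PowerSeries.C c * PowerSeries.X ^ (N + 1))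
    rw [hk, hu]
    have hd : PowerSeries.constantCoeff ((derivative P).eval s) = D := by
      rw [hD, derivative_map, eval_map]
      have e := Polynomial.hom_eval₂ (derivative P) (RingHom.id (PowerSeries K))
        (PowerSeries.constantCoeff (R := K)) s
      rw [RingHom.comp_id] at e
      rw [← hs, ← e, eval₂_id]
    have hX : (PowerSeries.X : PowerSeries K) ∣ u + (derivative P).eval s * PowerSeries.C c := by
      rw [PowerSeries.X_dvd_iff, map_add, map_mul, hd, PowerSeries.constantCoeff_C, hc]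
      field_simp
      ring
    obtain ⟨w, hw⟩ := hX
    refine ⟨w + k * PowerSeries.C c ^ 2 * PowerSeries.X ^ N, ?_⟩
    have e1 : PowerSeries.X ^ (N + 1) * u +
        (derivative P).eval s * (PowerSeries.C c * PowerSeries.X ^ (N + 1)) +
        k * (PowerSeries.C c * PowerSeries.X ^ (N + 1)) ^ 2 =
        PowerSeries.X ^ (N + 1) * (u + (derivative P).eval s * PowerSeries.C c) +
        k * (PowerSeries.C c * PowerSeries.X ^ (N + 1)) ^ 2 := by ring
    rw [e1, hw]
    ring
  obtain ⟨cf, hcf⟩ : ∃ cf : ℕ → PowerSeries K → K, ∀ N s, PowerSeries.constantCoeff s = α →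
      PowerSeries.X ^ (N + 1) ∣ P.eval s →
        PowerSeries.X ^ (N + 2) ∣ P.eval (s + PowerSeries.C (cf N s) * PowerSeries.X ^ (N + 1)) := by
    classical
    refine ⟨fun N s => if h : PowerSeries.constantCoeff s = α ∧
      PowerSeries.X ^ (N + 1) ∣ P.eval s then (hstep N s h.1 h.2).choose else 0, ?_⟩
    intro N s h2 h3
    have h4 : PowerSeries.constantCoeff s = α ∧ PowerSeries.X ^ (N + 1) ∣ P.eval s := ⟨h2, h3⟩
    simp only [dif_pos h4]
    exact (hstep N s h2 h3).choose_spec
  let s : ℕ → PowerSeries K := fun N => Nat.rec (PowerSeries.C α)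
    (fun N s => s + PowerSeries.C (cf N s) * PowerSeries.X ^ (N + 1)) N
  have hs0 : s 0 = PowerSeries.C α := rfl
  have hsS : ∀ N, s (N + 1) = s N + PowerSeries.C (cf N (s N)) * PowerSeries.X ^ (N + 1) :=
    fun N => rfl
  have hmain : ∀ N, PowerSeries.constantCoeff (s N) = α ∧ PowerSeries.X ^ (N + 1) ∣ P.eval (s N) := by
    intro N
    induction N with
    | zero =>
      refine ⟨by rw [hs0, PowerSeries.constantCoeff_C], ?_⟩
      rw [zero_add, pow_one, PowerSeries.X_dvd_iff, hs0]
      have e := Polynomial.hom_eval₂ P (RingHom.id (PowerSeries K))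
        (PowerSeries.constantCoeff (R := K)) (PowerSeries.C α)
      rw [RingHom.comp_id, PowerSeries.constantCoeff_C, eval₂_id] at e
      rw [e, ← eval_map]
      exact h0
    | succ N ih =>
      refine ⟨?_, ?_⟩
      · rw [hsS, map_add, ih.1, map_mul, map_pow, PowerSeries.constantCoeff_X, zero_pow (by omega),
          mul_zero, add_zero]
      · rw [hsS]
        exact hcf N (s N) ih.1 ih.2
  have hst : ∀ N k, k ≤ N → ∀ j, PowerSeries.coeff k (s (N + j)) = PowerSeries.coeff k (s N) := by
    intro N k hk j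
    induction j with
    | zero => rfl
    | succ j ih =>
      rw [← Nat.add_assoc, hsS, map_add, ih, PowerSeries.coeff_C_mul, PowerSeries.coeff_X_pow,
        if_neg (by omega), mul_zero, add_zero]
  obtain ⟨η, hη⟩ : ∃ η : PowerSeries K, η = PowerSeries.mk fun k => PowerSeries.coeff k (s k) :=
    ⟨_, rfl⟩
  have hdv : ∀ N, PowerSeries.X ^ (N + 1) ∣ η - s N := by
    intro N
    rw [PowerSeries.X_pow_dvd_iff]
    intro k hk
    rw [map_sub, hη, PowerSeries.coeff_mk]
    have h2 := hst k k le_rfl (N - k)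
    rw [Nat.add_sub_cancel' (by omega)] at h2
    rw [h2, sub_self]
  refine ⟨η, ?_, ?_⟩
  · ext N
    have h2 : PowerSeries.X ^ (N + 1) ∣ P.eval η - P.eval (s N) :=
      (hdv N).trans (sub_dvd_eval_sub _ _ _)
    have h3 : PowerSeries.X ^ (N + 1) ∣ P.eval η := by
      have := dvd_add h2 (hmain N).2
      rwa [sub_add_cancel] at this
    rw [map_zero]
    exact PowerSeries.X_pow_dvd_iff.1 h3 N (by omega)
  · rw [← PowerSeries.coeff_zero_eq_constantCoeff_apply, hη, PowerSeries.coeff_mk, hs0,
      PowerSeries.coeff_zero_eq_constantCoeff_apply, PowerSeries.constantCoeff_C]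

/-- powers of a series over a number field are linearly dependent over `ℚ⟦t⟧` -/
theorem series_dep {k : Type*} [Field k] [Algebra ℚ k] [FiniteDimensional ℚ k]
    (η : PowerSeries k) : ∃ A : (PowerSeries ℚ)[X], A ≠ 0 ∧
      A.natDegree ≤ Module.finrank ℚ k ∧
      A.eval₂ (PowerSeries.map (algebraMap ℚ k)) η = 0 := by
  classical
  obtain ⟨r, hr⟩ : ∃ r, r = Module.finrank ℚ k := ⟨_, rfl⟩
  let b : Module.Basis (Fin r) ℚ k := (Module.finBasis ℚ k).reindex (finCongr hr.symm)
  -- coordinates
  let κ : PowerSeries k → Fin r → PowerSeries ℚ := fun f j =>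
    PowerSeries.mk fun n => b.repr (PowerSeries.coeff n f) j
  have hκadd : ∀ f g, κ (f + g) = κ f + κ g := by
    intro f g
    funext j
    ext n
    simp [κ]
  have hκsmul : ∀ (a : PowerSeries ℚ) (f : PowerSeries k) j,
      κ (PowerSeries.map (algebraMap ℚ k) a * f) j = a * κ f j := by
    intro a f j
    ext n
    simp only [κ, PowerSeries.coeff_mk, PowerSeries.coeff_mul, PowerSeries.coeff_map]
    rw [map_sum, Finsupp.finsetSum_apply]
    refine sum_congr rfl fun x _ => ?_
    rw [← Algebra.smul_def, map_smul]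
    rfl
  have hκinj : ∀ f, κ f = 0 → f = 0 := by
    intro f hf
    ext n
    rw [map_zero]
    apply b.repr.injective
    rw [map_zero]
    ext j
    have h1 := congrArg (PowerSeries.coeff n) (congrFun hf j)
    simpa [κ] using h1
  let Φ : (Fin (r + 1) → PowerSeries ℚ) →ₗ[PowerSeries ℚ] (Fin r → PowerSeries ℚ) :=
    { toFun := fun a => κ (∑ i, PowerSeries.map (algebraMap ℚ k) (a i) * η ^ (i : ℕ))
      map_add' := by
        intro a a'
        rw [← hκadd]
        congr 1
        rw [← sum_add_distrib]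
        refine sum_congr rfl fun i _ => ?_
        rw [Pi.add_apply, map_add, add_mul]
      map_smul' := by
        intro c a
        funext j
        rw [RingHom.id_apply, Pi.smul_apply, smul_eq_mul, ← hκsmul]
        congr 1
        rw [mul_sum]
        refine sum_congr rfl fun i _ => ?_
        rw [Pi.smul_apply, smul_eq_mul, map_mul, mul_assoc] }
  have hnot : ¬ Function.Injective Φ := by
    intro hinj
    have h1 := card_le_of_injective (PowerSeries ℚ) Φ hinj
    simp at h1
  rw [← LinearMap.ker_eq_bot, LinearMap.ker_eq_bot'] at hnot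
  push Not at hnot
  obtain ⟨a, ha, ha0⟩ := hnot
  obtain ⟨A, hA⟩ : ∃ A : (PowerSeries ℚ)[X], A = ∑ i : Fin (r + 1), C (a i) * X ^ (i : ℕ) :=
    ⟨_, rfl⟩
  refine ⟨A, ?_, ?_, ?_⟩
  · intro hA0
    apply ha0
    funext i
    have h1 := congrArg (fun p => coeff p (i : ℕ)) hA0
    simp only [hA, finsetSum_coeff, coeff_C_mul, coeff_X_pow, coeff_zero] at h1
    rw [sum_eq_single i] at h1
    · simpa using h1
    · intro j _ hj
      rw [if_neg (fun h => hj (Fin.ext h.symm)), mul_zero]
    · intro h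
      exact absurd (mem_univ i) h
  · rw [hA, ← hr]
    refine natDegree_sum_le_of_forall_le _ _ fun i _ => ?_
    refine (natDegree_C_mul_X_pow_le _ _).trans ?_
    have := i.2
    omega
  · rw [hA, eval₂_finsetSum]
    apply hκinj
    rw [← ha]
    refine congrArg κ (sum_congr rfl fun i _ => ?_)
    rw [eval₂_mul, eval₂_C, eval₂_X_pow]

/-- the degree of an irreducible polynomial over `ℚ⟦t⟧` with a root over a number field -/
theorem deg_of_root {k : Type*} [Field k] [Algebra ℚ k] [FiniteDimensional ℚ k]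
    {G : (PowerSeries ℚ)[X]} (hG : G.Monic) (hirr : Irreducible G) (η : PowerSeries k)
    (hη : G.eval₂ (PowerSeries.map (algebraMap ℚ k)) η = 0) :
    G.natDegree ≤ Module.finrank ℚ k := by
  obtain ⟨A, hA0, hAd, hAe⟩ := series_dep η
  by_contra hcon
  push Not at hcon
  obtain ⟨K', hK'⟩ : ∃ K', K' = FractionRing (PowerSeries ℚ) := ⟨_, rfl⟩
  have hG' : Irreducible (G.map (algebraMap (PowerSeries ℚ) (FractionRing (PowerSeries ℚ)))) :=
    (hG.irreducible_iff_irreducible_map_fraction_map
      (K := FractionRing (PowerSeries ℚ))).1 hirr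
  have hinj : Function.Injective (algebraMap (PowerSeries ℚ) (FractionRing (PowerSeries ℚ))) :=
    IsFractionRing.injective _ _
  have hA' : A.map (algebraMap (PowerSeries ℚ) (FractionRing (PowerSeries ℚ))) ≠ 0 :=
    (Polynomial.map_ne_zero_iff hinj).2 hA0
  have hnd : ¬ G.map (algebraMap (PowerSeries ℚ) (FractionRing (PowerSeries ℚ))) ∣
      A.map (algebraMap (PowerSeries ℚ) (FractionRing (PowerSeries ℚ))) := by
    intro hdv
    have h1 := natDegree_le_of_dvd hdv hA'
    rw [natDegree_map_eq_of_injective hinj, natDegree_map_eq_of_injective hinj] at h1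
    omega
  have hco : IsCoprime (G.map (algebraMap (PowerSeries ℚ) (FractionRing (PowerSeries ℚ))))
      (A.map (algebraMap (PowerSeries ℚ) (FractionRing (PowerSeries ℚ)))) :=
    (hG'.coprime_iff_not_dvd).2 hnd
  obtain ⟨u, v, huv⟩ := hco
  -- evaluation at `η`
  obtain ⟨ψ, hψ⟩ : ∃ ψ : PowerSeries ℚ →+* FractionRing (PowerSeries k),
      ψ = (algebraMap (PowerSeries k) (FractionRing (PowerSeries k))).comp
        (PowerSeries.map (algebraMap ℚ k)) := ⟨_, rfl⟩
  have hψi : Function.Injective ψ := by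
    rw [hψ, RingHom.coe_comp]
    refine (IsFractionRing.injective _ _).comp ?_
    exact PowerSeries.map_injective _ (algebraMap ℚ k).injective
  obtain ⟨Ψ, hΨ⟩ : ∃ Ψ : FractionRing (PowerSeries ℚ) →+* FractionRing (PowerSeries k),
      Ψ.comp (algebraMap (PowerSeries ℚ) (FractionRing (PowerSeries ℚ))) = ψ := by
    refine ⟨IsFractionRing.lift hψi, ?_⟩
    refine RingHom.ext fun x => ?_
    rw [RingHom.comp_apply]
    exact IsFractionRing.lift_algebraMap hψi x
  have hev : ∀ Q : (PowerSeries ℚ)[X], Q.eval₂ (PowerSeries.map (algebraMap ℚ k)) η = 0 →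
      (Q.map (algebraMap (PowerSeries ℚ) (FractionRing (PowerSeries ℚ)))).eval₂ Ψ
        (algebraMap (PowerSeries k) (FractionRing (PowerSeries k)) η) = 0 := by
    intro Q hQ
    rw [eval₂_map, hΨ, hψ, ← hom_eval₂, hQ, map_zero]
  have h2 := congrArg (fun p => p.eval₂ Ψ
    (algebraMap (PowerSeries k) (FractionRing (PowerSeries k)) η)) huv
  simp only [eval₂_add, eval₂_mul, eval₂_one] at h2
  rw [hev G hη, hev A hAe, mul_zero, mul_zero, add_zero] at h2
  exact zero_ne_one h2

/-- the degree of an irreducible polynomial over `ℚ⟦t⟧` whose reduction is separable and has the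
real root `ξ` -/
theorem srd {G : (PowerSeries ℚ)[X]} (hG : G.Monic) (hirr : Irreducible G)
    (hsep : (G.map PowerSeries.constantCoeff).Separable) {ξ : ℝ}
    (hξ : aeval ξ (G.map PowerSeries.constantCoeff) = 0) :
    G.natDegree ≤ (minpoly ℚ ξ).natDegree := by
  have hG0 : (G.map (PowerSeries.constantCoeff (R := ℚ))).Monic := hG.map _
  have hint : IsIntegral ℚ ξ := ⟨_, hG0, hξ⟩
  have hp : Irreducible (minpoly ℚ ξ) := minpoly.irreducible hint
  have hfact : Fact (Irreducible (minpoly ℚ ξ)) := ⟨hp⟩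
  have hfin : FiniteDimensional ℚ (AdjoinRoot (minpoly ℚ ξ)) :=
    (AdjoinRoot.powerBasis hp.ne_zero).finite
  have hrk : Module.finrank ℚ (AdjoinRoot (minpoly ℚ ξ)) = (minpoly ℚ ξ).natDegree := by
    rw [(AdjoinRoot.powerBasis hp.ne_zero).finrank, AdjoinRoot.powerBasis_dim]
  rw [← hrk]
  obtain ⟨φ, hφ⟩ : ∃ φ : ℚ →+* AdjoinRoot (minpoly ℚ ξ), φ = algebraMap ℚ _ := ⟨_, rfl⟩
  have hcomm : (G.map (PowerSeries.map φ)).map (PowerSeries.constantCoeff
      (R := AdjoinRoot (minpoly ℚ ξ))) = (G.map (PowerSeries.constantCoeff (R := ℚ))).map φ := by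
    rw [Polynomial.map_map, Polynomial.map_map]
    congr 1
  have hdvd : minpoly ℚ ξ ∣ G.map (PowerSeries.constantCoeff (R := ℚ)) := minpoly.dvd ℚ ξ hξ
  have hroot : ((G.map (PowerSeries.constantCoeff (R := ℚ))).map φ).eval
      (AdjoinRoot.root (minpoly ℚ ξ)) = 0 := by
    obtain ⟨w, hw⟩ := hdvd
    have h1 : (minpoly ℚ ξ).eval₂ φ (AdjoinRoot.root (minpoly ℚ ξ)) = 0 := by
      rw [hφ]
      exact AdjoinRoot.eval₂_root (minpoly ℚ ξ)
    rw [hw, Polynomial.map_mul, eval_mul, eval_map, h1, zero_mul]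
  have hder : (derivative ((G.map (PowerSeries.constantCoeff (R := ℚ))).map φ)).eval
      (AdjoinRoot.root (minpoly ℚ ξ)) ≠ 0 := by
    have h1 : ((G.map (PowerSeries.constantCoeff (R := ℚ))).map φ).Separable := hsep.map
    have h2 := h1.eval₂_derivative_ne_zero (RingHom.id _)
      (x := AdjoinRoot.root (minpoly ℚ ξ)) (by rw [eval₂_id]; exact hroot)
    rwa [eval₂_id] at h2
  obtain ⟨η, hη, -⟩ := hensel_root (G.map (PowerSeries.map φ)) (AdjoinRoot.root (minpoly ℚ ξ))
    (by rw [hcomm]; exact hroot) (by rw [hcomm]; exact hder)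
  refine deg_of_root hG hirr η ?_
  rw [eval_map, hφ] at hη
  exact hη

end Pool.Agent.H37.TU
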